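import Pool.Agent.Lib.MP_e8440a_lc.Col

/- The almost everywhere calculus of a normal fine complete saturated filter. -/

open Set Order Filter

namespace Pool.Agent.Lib.MP_e8440a_lc

/-- The dual filter of the ideal, as a filter on sets of ordinals. -/
structure Ctx (K : On) (𝓕 : Filter (Set On)) : Prop where
  reg : Reg K
  ne : 𝓕.NeBot
  sub : ∀ᶠ x in 𝓕, x ⊆ Iio (nx K)
  big : ∀ᶠ x in 𝓕, ¬ Sm K x
  small : ∀ᶠ x in 𝓕, Sm (nx K) x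
  fine : ∀ α < nx K, ∀ᶠ x in 𝓕, α ∈ x
  normal : ∀ (P : Set On → Prop) (f : Set On → On), (∃ᶠ x in 𝓕, P x ∧ f x ∈ x) →
    ∃ α, ∃ᶠ x in 𝓕, P x ∧ f x = α
  comp : ∀ {ι : Type 1} (S : Set ι) (P : ι → Set On → Prop), Sm K S →
    (∀ i ∈ S, ∀ᶠ x in 𝓕, P i x) → ∀ᶠ x in 𝓕, ∀ i ∈ S, P i x
  sat : ∀ {ι : Type 1} (S : Set ι) (P : ι → Set On → Prop), (∀ i ∈ S, ∃ᶠ x in 𝓕, P i x) →
    (∀ i ∈ S, ∀ j ∈ S, i ≠ j → ∀ᶠ x in 𝓕, ¬ (P i x ∧ P j x)) → Sm (nx K) S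

/-- least ordinal not in `x` -/
noncomputable def tt (x : Set On) : On := sInf {i | i ∉ x}

/-- filtration of `η` of length `K` -/
def FF (K η ξ : On) : Set On := XX K η (Iio ξ)

/-- typical sets -/
structure Typ (K : On) (x : Set On) : Prop where
  sub : x ⊆ Iio (nx K)
  small : Sm (nx K) x
  zero : 0 ∈ x
  tlt : tt x < K
  mem : ∀ i < K, i ∈ x ↔ i < tt x
  init : ∀ α ∈ x, ∀ β < α, β ∈ x ↔ β ∈ FF K α (tt x)
  collt : ∀ α ∈ x, col x α < K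
  onto : ∀ ξ < K, ∃ α ∈ x, col x α = ξ

variable {K : On} {𝓕 : Filter (Set On)}

theorem Ctx.regL (c : Ctx K 𝓕) : Reg (nx K) := c.reg.next

theorem Ctx.normal' (c : Ctx K 𝓕) {P : On → Set On → Prop}
    (h : ∃ᶠ x in 𝓕, ∃ α ∈ x, P α x) : ∃ α < nx K, ∃ᶠ x in 𝓕, α ∈ x ∧ P α x := by
  classical
  let f : Set On → On := fun x => if H : ∃ α ∈ x, P α x then H.choose else 0
  have hf : ∀ x, (∃ α ∈ x, P α x) → f x ∈ x ∧ P (f x) x := by
    intro x H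
    simp only [f, dif_pos H]
    exact H.choose_spec
  obtain ⟨α, hα⟩ := c.normal (fun x => ∃ α ∈ x, P α x) f (h.mono fun x H => ⟨H, (hf x H).1⟩)
  have h2 : ∃ᶠ x in 𝓕, α ∈ x ∧ P α x := hα.mono fun x ⟨H, he⟩ => he ▸ hf x H
  obtain ⟨x, hx, hs⟩ := (h2.and_eventually c.sub).exists
  exact ⟨α, hs hx.1, h2⟩

theorem Ctx.diag (c : Ctx K 𝓕) {P : On → Set On → Prop}
    (h : ∀ α < nx K, ∀ᶠ x in 𝓕, P α x) : ∀ᶠ x in 𝓕, ∀ α ∈ x, P α x := by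
  by_contra hc
  rw [Filter.not_eventually] at hc
  obtain ⟨α, hα, h2⟩ := c.normal' (P := fun α x => ¬ P α x)
    (hc.mono fun x hx => by push Not at hx; exact hx)
  obtain ⟨x, hx, hx'⟩ := (h2.and_eventually (h α hα)).exists
  exact hx.2 hx'

theorem Ctx.diag2 (c : Ctx K 𝓕) {P : On → On → Set On → Prop}
    (h : ∀ α < nx K, ∀ β < nx K, ∀ᶠ x in 𝓕, P α β x) :
    ∀ᶠ x in 𝓕, ∀ α ∈ x, ∀ β ∈ x, P α β x :=
  c.diag fun α hα => c.diag (h α hα)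

theorem Ctx.fine_imp (c : Ctx K 𝓕) {p : Prop} {a : On} (h : p → a < nx K) :
    ∀ᶠ x in 𝓕, p → a ∈ x := by
  by_cases hp : p
  · exact (c.fine a (h hp)).mono fun _ h _ => h
  · exact Eventually.of_forall fun _ h => absurd h hp

theorem Ctx.closed1 (c : Ctx K 𝓕) {p : On → Prop} {φ : On → On}
    (h : ∀ α < nx K, p α → φ α < nx K) : ∀ᶠ x in 𝓕, ∀ α ∈ x, p α → φ α ∈ x :=
  c.diag fun α hα => c.fine_imp (h α hα)

theorem Ctx.closed2 (c : Ctx K 𝓕) {p : On → On → Prop} {φ : On → On → On}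
    (h : ∀ α < nx K, ∀ β < nx K, p α β → φ α β < nx K) :
    ∀ᶠ x in 𝓕, ∀ α ∈ x, ∀ β ∈ x, p α β → φ α β ∈ x :=
  c.diag2 fun α hα β hβ => c.fine_imp (h α hα β hβ)

theorem Ctx.supset (c : Ctx K 𝓕) {S : Set On} (hS : Sm K S) (h : S ⊆ Iio (nx K)) :
    ∀ᶠ x in 𝓕, S ⊆ x :=
  c.comp S (fun i x => i ∈ x) hS fun i hi => c.fine i (h hi)

/-- a statement about at most one object -/
theorem ev_unique {α : Type*} {l : Filter α} {p : On → Prop} {P : On → α → Prop}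
    (hu : ∀ a b, p a → p b → a = b) (h : ∀ a, p a → ∀ᶠ x in l, P a x) :
    ∀ᶠ x in l, ∀ a, p a → P a x := by
  by_cases H : ∃ a, p a
  · obtain ⟨a, ha⟩ := H
    exact (h a ha).mono fun x hx b hb => hu a b ha hb ▸ hx
  · exact Eventually.of_forall fun x a ha => absurd ⟨a, ha⟩ H

theorem Ctx.inv_closed (c : Ctx K 𝓕) :
    ∀ᶠ x in 𝓕, ∀ α ∈ x, ∀ β < α, hh K α β ∈ x → β ∈ x := by
  have := c.diag2 (P := fun α i x => ∀ β, (β < α ∧ hh K α β = i) → β ∈ x) fun α hα i _ =>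
    ev_unique (fun a b ha hb => c.reg.hh_inj hα ha.1 hb.1 (ha.2.trans hb.2.symm))
      fun a ha => c.fine a (ha.1.trans hα)
  filter_upwards [this] with x hx α hα β hβ hm
  exact hx α hα _ hm β ⟨hβ, rfl⟩

theorem Ctx.not_supset (c : Ctx K 𝓕) : ∀ᶠ x in 𝓕, ¬ Iio K ⊆ x := by
  by_contra hc
  rw [Filter.not_eventually] at hc
  simp only [not_not] at hc
  have key : ∀ᶠ x in 𝓕, Iio K ⊆ x → tt x < nx K ∧ ∀ β ∈ x, β < tt x := by
    filter_upwards [c.inv_closed, c.sub, c.small] with x h1 h2 h3 hK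
    obtain ⟨b, hb, hb'⟩ := c.regL.bdd h3 id fun i hi => h2 hi
    have hbx : b ∉ x := fun h => lt_irrefl _ (hb' b h)
    have hne : ({i | i ∉ x} : Set On).Nonempty := ⟨b, hbx⟩
    refine ⟨(csInf_le' (s := {i | i ∉ x}) hbx).trans_lt hb, fun β hβ => ?_⟩
    by_contra hlt
    have hm : tt x ∉ x := csInf_mem hne
    rcases (not_lt.1 hlt).eq_or_lt with h | h
    · exact hm (h ▸ hβ)
    · exact hm (h1 β hβ _ h (hK (c.reg.hh_lt (h2 hβ) h)))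
  have ex : ∀ β < nx K, ∃ ξ < K, ∃ᶠ x in 𝓕,
      tt x < nx K ∧ β < tt x ∧ hh K (tt x) β = ξ := by
    intro β hβ
    obtain ⟨ξ, hξ⟩ := c.normal (fun x => tt x < nx K ∧ β < tt x) (fun x => hh K (tt x) β) (by
      refine ((hc.and_eventually key).and_eventually (c.fine β hβ)).mono ?_
      rintro x ⟨⟨h1, h2⟩, h3⟩
      have h4 := h2 h1
      exact ⟨⟨h4.1, h4.2 β h3⟩, h1 (c.reg.hh_lt h4.1 (h4.2 β h3))⟩)
    obtain ⟨x, hx, he⟩ := hξ.exists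
    exact ⟨ξ, he ▸ c.reg.hh_lt hx.1 hx.2, hξ.mono fun x ⟨h1, h2⟩ => ⟨h1.1, h1.2, h2⟩⟩
  choose! ξ hξ1 hξ2 using ex
  apply c.regL.not_sm
  refine (c.regL.sm_biUnion (S := Iio K) (T := fun i => {β | β < nx K ∧ ξ β = i})
    (c.regL.sm_Iio.2 (lt_nx K)) fun i _ => ?_).mono fun β hβ =>
      mem_biUnion (hξ1 β hβ) ⟨hβ, rfl⟩
  refine c.sat _ (fun β x => tt x < nx K ∧ β < tt x ∧ hh K (tt x) β = ξ β)
    (fun β hβ => hξ2 β hβ.1) ?_
  rintro β hβ β' hβ' hne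
  refine Eventually.of_forall fun x ⟨h1, h2⟩ => hne ?_
  exact c.reg.hh_inj h1.1 h1.2.1 h2.2.1 (by rw [h1.2.2, h2.2.2, hβ.2, hβ'.2])

theorem Ctx.typ (c : Ctx K 𝓕) : ∀ᶠ x in 𝓕, Typ K x := by
  have h1 : ∀ᶠ x in 𝓕, ∀ α ∈ x, α < K → Iio α ⊆ x := c.diag fun α hα => by
    by_cases h : α < K
    · exact (c.supset (c.reg.sm_Iio.2 h) fun i hi => lt_trans hi hα).mono fun _ h _ => h
    · exact Eventually.of_forall fun _ h' => absurd h' h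
  have h2 := c.closed2 (p := fun α β => β < α) (φ := fun α β => hh K α β)
    fun α hα β _ h => (c.reg.hh_lt hα h).trans (lt_nx K)
  filter_upwards [h1, h2, c.inv_closed, c.not_supset, c.sub, c.small, c.big,
    c.fine 0 c.regL.pos] with x h1 h2 h3 h4 h5 h6 h7 h8
  obtain ⟨i0, hi0, hi0x⟩ := not_subset.1 h4
  have htle : tt x ≤ i0 := csInf_le' (s := {i | i ∉ x}) hi0x
  have htx : tt x ∉ x := csInf_mem (s := {i | i ∉ x}) ⟨i0, hi0x⟩
  have hmem : ∀ i < K, i ∈ x ↔ i < tt x := by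
    intro i hi
    constructor
    · intro hx
      by_contra hlt
      rcases (not_lt.1 hlt).eq_or_lt with h | h
      · exact htx (h ▸ hx)
      · exact htx (h1 i hx hi h)
    · intro hlt
      by_contra hx
      exact absurd (csInf_le' (s := {i | i ∉ x}) hx) (not_le.2 hlt)
  have hinit : ∀ α ∈ x, ∀ β < α, β ∈ x ↔ β ∈ FF K α (tt x) := by
    intro α hα β hβ
    have hl := c.reg.hh_lt (h5 hα) hβ
    exact ⟨fun h => ⟨hβ, (hmem _ hl).1 (h2 α hα β h hβ)⟩,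
      fun h => h3 α hα β hβ ((hmem _ hl).2 h.2)⟩
  have htK : tt x < K := htle.trans_lt hi0
  refine ⟨h5, h6, h8, htK, hmem, hinit, fun α hα => ?_, fun ξ hξ => ?_⟩
  · rw [c.reg.col_lt_iff]
    exact (c.reg.sm_XX (h5 hα) (c.reg.sm_Iio.2 htK)).mono fun β hβ => (hinit α hα β hβ.2).1 hβ.1
  · have : ¬ col x (nx K) < K := by
      rw [c.reg.col_lt_iff]
      exact fun h => h7 (h.mono fun β hβ => ⟨hβ, h5 hβ⟩)
    obtain ⟨b, hb, -, he⟩ := exists_col_eq (hξ.trans_le (not_lt.1 this))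
    exact ⟨b, hb, he⟩

theorem Typ.tt_pos {x : Set On} (h : Typ K x) (hK : Reg K) : 0 < tt x := (h.mem 0 hK.pos).1 h.zero

theorem Typ.col_eq_ff {x : Set On} (h : Typ K x) {α β : On} (hα : α ∈ x) (hβ : β ≤ α) :
    col x β = col (FF K α (tt x)) β :=
  col_congr fun b hb => h.init α hα b (hb.trans_le hβ)

theorem Typ.col_small {x : Set On} (h : Typ K x) {i : On} (hi : i < tt x) : col x i = i :=
  col_eq_self fun b hb => (h.mem b ((hb.trans hi).trans h.tlt)).2 (hb.trans hi)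

theorem Ctx.tt_cl (c : Ctx K 𝓕) {P : On → Prop} (h : ∀ᶠ t in clF K, P t) :
    ∀ᶠ x in 𝓕, P (tt x) := by
  obtain ⟨φ, h1, h2⟩ := ev_clF.1 h
  have := c.closed1 (p := fun α => α < K) (φ := φ) fun α _ h => (h1 α h).trans (lt_nx K)
  filter_upwards [this, c.typ] with x hx ht
  refine h2 _ ht.tlt (ht.tt_pos c.reg) fun α hα => ?_
  have hαK := hα.trans ht.tlt
  exact (ht.mem _ (h1 α hαK)).1 (hx α ((ht.mem α hαK).2 hα) hαK)

/-- functions into `K` are locally given by collapsing a fixed ordinal -/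
theorem Ctx.locK (c : Ctx K 𝓕) {P : On → Set On → Prop}
    (h : ∃ᶠ x in 𝓕, ∃ ξ < K, P ξ x) :
    ∃ α < nx K, ∃ᶠ x in 𝓕, α ∈ x ∧ P (col x α) x := by
  refine c.normal' (P := fun α x => P (col x α) x) ((h.and_eventually c.typ).mono ?_)
  rintro x ⟨⟨ξ, hξ, hP⟩, ht⟩
  obtain ⟨α, hα, rfl⟩ := ht.onto ξ hξ
  exact ⟨α, hα, hP⟩

/-- bounding functions into `K` -/
theorem Ctx.bnd (c : Ctx K 𝓕) (φ : Set On → On) :
    ∃ b < nx K, ∀ᶠ x in 𝓕, φ x < K → φ x < col x b := by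
  have hS : Sm (nx K) {α | α < nx K ∧ ∃ᶠ x in 𝓕, α ∈ x ∧ col x α = φ x} := by
    refine c.sat _ (fun α x => α ∈ x ∧ col x α = φ x) (fun α hα => hα.2) ?_
    intro α _ β _ hne
    exact Eventually.of_forall fun x ⟨h1, h2⟩ => hne (col_inj h1.1 h2.1 (h1.2.trans h2.2.symm))
  obtain ⟨b, hb, hb'⟩ := c.regL.bdd hS id fun α hα => hα.1
  refine ⟨b, hb, ?_⟩
  by_contra hc
  rw [Filter.not_eventually] at hc
  obtain ⟨α, hα, h2⟩ := c.locK (P := fun ξ x => ξ = φ x ∧ col x b ≤ φ x) (hc.mono fun x hx => by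
    push Not at hx
    exact ⟨φ x, hx.1, rfl, hx.2⟩)
  have hαb : α < b := hb' α ⟨hα, h2.mono fun x hx => ⟨hx.1, hx.2.1⟩⟩
  obtain ⟨x, h1, h3, h4⟩ := h2.exists
  exact absurd (col_lt h1 hαb) (not_lt.2 (h4.trans h3.ge))

/-- kernel of a family of clubs of `K` -/
theorem Ctx.kl1 (c : Ctx K 𝓕) {P : Set On → On → Prop}
    (h : ∀ᶠ x in 𝓕, ∀ᶠ ξ in clF K, P x ξ) :
    ∃ D ∈ clF (nx K), ∀ᶠ x in 𝓕, ∀ v ∈ D, v ∈ x → P x (col x v) := by
  classical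
  have : ∀ x, ∃ φ : On → On, (∀ᶠ ξ in clF K, P x ξ) → (∀ α < K, φ α < K) ∧
      ∀ v < K, 0 < v → (∀ α < v, φ α < v) → P x v := by
    intro x
    by_cases H : ∀ᶠ ξ in clF K, P x ξ
    · obtain ⟨φ, hφ⟩ := ev_clF.1 H
      exact ⟨φ, fun _ => hφ⟩
    · exact ⟨id, fun h => absurd h H⟩
  choose φ hφ using this
  choose b hb1 hb2 using fun α => c.bnd fun x => φ x (col x α)
  refine ⟨{v | 0 < v ∧ ∀ α < v, b α < v}, (cl_pos _).and (cl_closed fun α _ => hb1 α), ?_⟩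
  filter_upwards [h, c.typ, c.diag fun α _ => hb2 α] with x hx ht hd v hv hvx
  obtain ⟨h1, h2⟩ := hφ x hx
  refine h2 _ (ht.collt v hvx) ((zero_le (a := col x 0)).trans_lt (col_lt ht.zero hv.1)) ?_
  intro ξ hξ
  obtain ⟨α, hα, hαv, rfl⟩ := exists_col_eq hξ
  exact (hd α hα (h1 _ (ht.collt α hα))).trans_le (col_mono x (hv.2 α hαv).le)

/-- collapse of a club of `nx K` -/
theorem Ctx.pull (c : Ctx K 𝓕) {D : Set On} (hD : D ∈ clF (nx K)) :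
    ∀ᶠ x in 𝓕, ∀ᶠ ξ in clF K, ∃ v ∈ D, v ∈ x ∧ col x v = ξ := by
  classical
  obtain ⟨φ, h1, h2⟩ := mem_clF.1 hD
  have h3 := c.closed1 (p := fun _ => True) (φ := φ) fun α hα _ => h1 α hα
  have h4 : ∀ᶠ x in 𝓕, ∀ v ∈ x, (∃ α < v, v ≤ φ α) → ∃ α ∈ x, α < v ∧ v ≤ φ α := by
    refine c.diag fun v hv => ?_
    by_cases H : ∃ α < v, v ≤ φ α
    · obtain ⟨α, hα, hα'⟩ := H
      exact (c.fine α (hα.trans hv)).mono fun x hx _ => ⟨α, hx, hα, hα'⟩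
    · exact Eventually.of_forall fun x h => absurd h H
  filter_upwards [h3, h4, c.typ] with x h3 h4 ht
  choose! en hen1 hen2 using ht.onto
  refine ⟨fun ξ => col x (φ (en ξ)), fun ξ hξ => ht.collt _ (h3 _ (hen1 ξ hξ) trivial), ?_⟩
  intro ξ hξ h0 hc
  refine ⟨en ξ, h2 _ (ht.sub (hen1 ξ hξ)) ?_ ?_, hen1 ξ hξ, hen2 ξ hξ⟩
  · rw [← hen2 ξ hξ] at h0
    obtain ⟨b, -, hb, -⟩ := exists_col_eq h0
    exact (zero_le (a := b)).trans_lt hb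
  · by_contra hcon
    push Not at hcon
    obtain ⟨α, hαx, hα, hα'⟩ := h4 _ (hen1 ξ hξ) hcon
    have h5 : col x α < ξ := (col_lt hαx hα).trans_eq (hen2 ξ hξ)
    have h6 := hc _ h5
    have h7 : en (col x α) = α :=
      col_inj (hen1 _ (h5.trans hξ)) hαx (hen2 _ (h5.trans hξ))
    simp only [h7] at h6
    exact absurd (col_mono x hα') (not_le.2 (h6.trans_eq (hen2 ξ hξ).symm))

end Pool.Agent.Lib.MP_e8440a_lc
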