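import Pool.Agent.Lib.MP_e8440a_lc.Count

/- A subset of `K` that detects the points of continuity. -/

open Set Order Filter

namespace Pool.Agent.Lib.MP_e8440a_lc

variable {K : On} {𝓕 : Filter (Set On)}

/-- `W` has a cofinal subset with fewer than `θ` elements -/
def Cof (θ : On) (W : Set On) : Prop := ∃ c ⊆ W, Sm θ c ∧ ∀ β ∈ W, ∃ γ ∈ c, β ≤ γ

theorem col_le_self (W : Set On) (β : On) : col W β ≤ β :=
  col_le_of_lt id (fun _ _ _ _ h _ => h) (fun _ _ h => h)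

theorem col_le_col {W W' : Set On} (h : W ⊆ W') (β : On) : col W β ≤ col W' β :=
  col_le_of_map id (fun _ _ _ _ h _ => h) (fun _ hb hb' => ⟨h hb, hb'⟩)

theorem cof_col {θ β : On} {W : Set On} (hW : W ⊆ Iio β) :
    Cof θ (Iio (col W β)) ↔ Cof θ W := by
  constructor
  · rintro ⟨c, hc, hs, hcof⟩
    refine ⟨{b | b ∈ W ∧ col W b ∈ c}, fun b hb => hb.1,
      hs.of_injOn (col W) ((col_injOn W).mono fun b hb => hb.1) fun b hb => hb.2, fun b hb => ?_⟩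
    obtain ⟨γ, hγ, hle⟩ := hcof _ (col_lt hb (hW hb))
    obtain ⟨b', hb', -, rfl⟩ := exists_col_eq (hc hγ)
    exact ⟨b', ⟨hb', hγ⟩, (col_le_iff hb').1 hle⟩
  · rintro ⟨c, hc, hs, hcof⟩
    refine ⟨col W '' c, ?_, hs.image _, fun ξ hξ => ?_⟩
    · rintro _ ⟨b, hb, rfl⟩
      exact col_lt (hc hb) (hW (hc hb))
    · obtain ⟨b, hb, -, rfl⟩ := exists_col_eq hξ
      obtain ⟨γ, hγ, hle⟩ := hcof b hb
      exact ⟨_, mem_image_of_mem _ hγ, col_mono W hle⟩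

theorem FF_sub {θ η v : On} : FF θ η v ⊆ Iio η := fun _ h => h.1

theorem Reg.exists_col {θ : On} (h : Reg θ) {S : Set On} {β ξ : On} (hS : ¬ Sm θ (S ∩ Iio β))
    (hξ : ξ < θ) : ∃ b ∈ S, b < β ∧ col S b = ξ :=
  exists_col_eq (hξ.trans_le (not_lt.1 fun h' => hS (h.col_lt_iff.1 h')))

theorem Reg.not_sm_of_freq {θ : On} (h : Reg θ) {S : Set On} (hS : ∃ᶠ v in clF θ, v ∈ S) :
    ¬ Sm θ (S ∩ Iio θ) := by
  intro hs
  obtain ⟨b, hb, hb'⟩ := h.bdd hs id fun i hi => hi.2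
  obtain ⟨v, hv, hv1, hv2⟩ := (hS.and_eventually ((cl_gt hb).and (cl_lt θ))).exists
  exact lt_asymm hv1 (hb' v ⟨hv, hv2⟩)

/-- points of a club with a cofinal subset of prescribed limit order type -/
theorem Reg.cl_type {θ κ : On} (h : Reg θ) (hκ : IsSuccLimit κ) (hlt : κ < θ)
    {P : On → Prop} (hP : ∀ᶠ v in clF θ, P v) :
    ∃ ζ < θ, P ζ ∧ ∃ c ⊆ Iio ζ, col c ζ = κ ∧ ∀ β < ζ, ∃ γ ∈ c, β ≤ γ := by
  obtain ⟨φ, h1, h2⟩ := ev_clF.1 hP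
  set S : Set On := {v | 0 < v ∧ ∀ α < v, φ α < v} with hS
  have := h.cl_neBot
  have hS' : ¬ Sm θ (S ∩ Iio θ) :=
    h.not_sm_of_freq (Eventually.frequently ((cl_pos θ).and (cl_closed h1)))
  obtain ⟨ζ, hζ, hζθ, he⟩ := h.exists_col hS' hlt
  refine ⟨ζ, hζθ, h2 ζ hζθ hζ.1 hζ.2, S ∩ Iio ζ, inter_subset_right, ?_, ?_⟩
  · rw [← he]
    exact col_congr fun b hb => ⟨fun h => h.1, fun h => ⟨h, hb⟩⟩
  · intro β hβ
    by_contra hc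
    push Not at hc
    have hbdd : BddAbove (S ∩ Iio ζ) := ⟨ζ, fun b hb => le_of_lt hb.2⟩
    obtain ⟨b0, hb0, hb0', -⟩ := exists_col_eq (W := S) (β := ζ) (ξ := 0) (he ▸ hκ.pos)
    have hne : (S ∩ Iio ζ).Nonempty := ⟨b0, hb0, hb0'⟩
    have hm : sSup (S ∩ Iio ζ) ∈ S := by
      refine ⟨hb0.1.trans_le (le_csSup hbdd ⟨hb0, hb0'⟩), fun α hα => ?_⟩
      obtain ⟨v, hv, hαv⟩ := exists_lt_of_lt_csSup hne hα
      exact (hv.1.2 α hαv).trans_le (le_csSup hbdd hv)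
    have hmζ : sSup (S ∩ Iio ζ) < ζ := (csSup_le hne fun b hb => (hc b hb).le).trans_lt hβ
    have h3 : col S (sSup (S ∩ Iio ζ)) + 1 < col S ζ := by
      rw [he]; exact hκ.add_one_lt (he ▸ col_lt hm hmζ)
    obtain ⟨b, hb, hbζ, hb'⟩ := exists_col_eq h3
    have h4 := col_mono S (le_csSup hbdd ⟨hb, hbζ⟩)
    rw [hb'] at h4
    exact absurd h4 (not_le.2 (Order.lt_add_one_iff.2 le_rfl))

theorem Reg.not_cof (h : Reg K) {c W : Set On} {ζ : On} (hc : col c ζ = K) (hcζ : c ⊆ Iio ζ)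
    (hcof : ∀ β < ζ, ∃ γ ∈ c, β ≤ γ) (h1 : c ⊆ W) (h2 : W ⊆ Iio ζ) : ¬ Cof K W := by
  rintro ⟨c', hc', hs, hcof'⟩
  obtain ⟨b, hb, hb'⟩ := h.bdd hs (col c) fun γ hγ => by
    obtain ⟨γ', hγ', hle⟩ := hcof γ (h2 (hc' hγ))
    exact (col_mono c hle).trans_lt (hc ▸ col_lt hγ' (hcζ hγ'))
  obtain ⟨e, he, -, rfl⟩ := exists_col_eq (hb.trans_eq hc.symm)
  obtain ⟨γ, hγ, hle⟩ := hcof' e (h1 he)
  exact absurd (col_mono c hle) (not_le.2 (hb' γ hγ))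

theorem Reg.ev_sub_FF {θ ζ : On} (h : Reg θ) (hζ : ζ < nx θ) {c : Set On} (hc : c ⊆ Iio ζ)
    (hs : Sm θ c) : ∀ᶠ v in clF θ, c ⊆ FF θ ζ v := by
  obtain ⟨b, hb, hb'⟩ := h.bdd hs (hh θ ζ) fun γ hγ => h.hh_lt hζ (hc hγ)
  exact (cl_gt hb).mono fun v hv γ hγ => ⟨hc hγ, (hb' γ hγ).trans hv⟩

theorem Reg.cof_FF {θ ζ κ : On} (h : Reg θ) (hζ : ζ < nx θ) (hc : ¬ Cof θ (Iio ζ)) :
    ∀ᶠ v in clF θ, (Cof κ (FF θ ζ v) ↔ Cof κ (Iio v)) := by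
  have ex : ∀ α < θ, ∃ β < ζ, ∀ γ ∈ FF θ ζ (α + 1), γ < β := by
    intro α hα
    by_contra hcon
    push Not at hcon
    exact hc ⟨_, FF_sub, h.sm_FF hζ (h.succ_lt hα), hcon⟩
  choose! b hb1 hb2 using ex
  filter_upwards [cl_lt θ, cl_closed (φ := fun α => hh θ ζ (b α))
    fun α hα => h.hh_lt hζ (hb1 α hα)] with v hv hcl
  constructor
  · rintro ⟨c, hc1, hs, hcof⟩
    refine ⟨hh θ ζ '' c, ?_, hs.image _, fun α hα => ?_⟩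
    · rintro _ ⟨γ, hγ, rfl⟩
      exact (hc1 hγ).2
    · by_contra hcon
      push Not at hcon
      obtain ⟨γ, hγ, hle⟩ := hcof (b α) ⟨hb1 α (lt_trans hα hv), hcl α hα⟩
      have := hb2 α (lt_trans hα hv) γ ⟨(hc1 hγ).1,
        (hcon _ (mem_image_of_mem _ hγ)).trans (Order.lt_add_one_iff.2 le_rfl)⟩
      exact absurd hle (not_le.2 this)
  · rintro ⟨c, hc1, hs, hcof⟩
    refine ⟨b '' c, ?_, hs.image _, fun β hβ => ?_⟩
    · rintro _ ⟨α, hα, rfl⟩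
      exact ⟨hb1 α (lt_trans (hc1 hα) hv), hcl α (hc1 hα)⟩
    · obtain ⟨α, hα, hle⟩ := hcof _ hβ.2
      exact ⟨_, mem_image_of_mem _ hα,
        (hb2 α (lt_trans (hc1 hα) hv) β ⟨hβ.1, Order.lt_add_one_iff.2 hle⟩).le⟩

theorem Ctx.ff_tr (c : Ctx K 𝓕) {ζ : On} (hζ : ζ < nx (nx K)) {P : On → On → Prop}
    (h : ∀ᶠ v in clF (nx K), P v (ff (nx K) ζ v)) :
    ∀ᶠ y in 𝓕, ∀ᶠ t in clF K, ∃ v ∈ y, ∃ w ∈ y, P v w ∧ col y v = t ∧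
      col y w = ff K (gg K ζ y) t := by
  obtain ⟨D, hD, hA⟩ := c.pcs hζ
  filter_upwards [hA, c.pull (inter_mem hD h)] with y h1 h2
  filter_upwards [h2] with t ht
  obtain ⟨v, hv, hvy, rfl⟩ := ht
  exact ⟨v, hvy, _, h1.mem v hvy, hv.2, rfl, (h1.ffeq v hv.1 hvy).symm⟩

def Y1 (K : On) (A : Set On) : Prop :=
  ∀ η < nx K, ¬ Cof K (Iio η) → ∀ᶠ t in clF K, (ff K η t ∈ A ↔ t ∈ A)

def Y2 (K : On) (A : Set On) : Prop :=
  ∃ᶠ ξ in clF (nx K), ∀ᶠ t in clF K, ff K ξ t ∈ A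

theorem Ctx.y1 (c : Ctx K 𝓕) : ∀ᶠ y in 𝓕, Y1 K (tr {ξ | Cof K (Iio ξ)} y) := by
  refine c.loc_all fun ζ hζ => ?_
  by_cases H : Cof (nx K) (Iio ζ)
  · obtain ⟨d, hd, hs, hcof⟩ := H
    obtain ⟨f, hf1, hf2⟩ := hs.exists_inj
    choose! n hn1 hn2 using hcof
    have h1 := c.diagX hζ (P := fun β y => n β ∈ XX (nx K) ζ y ∧ (β ∈ d → f β ∈ y))
      fun β hβ => (c.fineX hζ (hd (hn1 β hβ))).and
        (c.fine_imp fun h => (hf2 β h).trans (lt_nx K))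
    filter_upwards [h1, c.typ] with y h1 ht hn
    refine absurd ((cof_col fun β hβ => hβ.1).2 ?_) hn
    refine ⟨XX (nx K) ζ y ∩ d, inter_subset_left, ?_, fun β hβ =>
      ⟨n β, ⟨(h1 β hβ).1, hn1 β hβ.1⟩, hn2 β hβ.1⟩⟩
    exact (c.reg.sm_Iio.2 ht.tlt).of_injOn f (hf1.mono inter_subset_right)
      fun β hβ => (ht.mem _ (hf2 β hβ.2)).1 ((h1 β hβ.1).2 hβ.2)
  · have h1 := c.ff_tr hζ (P := fun v w => Cof K (Iio w) ↔ Cof K (Iio v))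
      ((c.regL.cof_FF hζ H).mono fun v hv => (cof_col FF_sub).trans hv)
    filter_upwards [h1] with y h1 _
    filter_upwards [h1] with t ht
    obtain ⟨v, hv, w, hw, hP, rfl, he⟩ := ht
    rw [← he, mem_tr hv, mem_tr hw]
    exact hP

theorem Ctx.y2_aux (c : Ctx K 𝓕) {S : Set On} {T : Set On → Set On}
    (hT : ∀ y, ∀ w ∈ y, w ∈ S → col y w ∈ T y)
    (h : ∃ᶠ ζ in clF (nx (nx K)), ∀ᶠ v in clF (nx K), ff (nx K) ζ v ∈ S) :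
    ∀ᶠ y in 𝓕, Y2 K (T y) := by
  have h1 := c.kl2 (P := fun y ξ => ¬ Y2 K (T y) → ¬ ∀ᶠ t in clF K, ff K ξ t ∈ T y)
    (Eventually.of_forall fun y => by
      by_cases H : Y2 K (T y)
      · exact Eventually.of_forall fun _ h => absurd H h
      · exact (Filter.not_frequently.1 H).mono fun _ h _ => h)
  obtain ⟨ζ, h2, h3, hζ⟩ := (h.and_eventually (h1.and (cl_lt _))).exists
  filter_upwards [h3, c.ff_tr hζ (P := fun _ w => w ∈ S) h2] with y h3 h4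
  by_contra hc
  refine h3 hc (h4.mono ?_)
  rintro t ⟨v, -, w, hw, hP, -, he⟩
  exact he ▸ hT y w hw hP

theorem Ctx.y2 (c : Ctx K 𝓕) : ∀ᶠ y in 𝓕, Y2 K (tr {ξ | Cof K (Iio ξ)} y) := by
  refine c.y2_aux (S := {ξ | Cof K (Iio ξ)}) (fun y w hw h => (mem_tr hw).2 h) ?_
  intro hcon
  obtain ⟨ζ, hζ, hP, d, hd, hdc, hcof⟩ := c.regL2.cl_type Ordinal.isSuccLimit_omega0
    c.regL2.omega_lt hcon
  have hs : Sm K d :=
    (c.reg.col_lt_iff.1 (hdc ▸ c.reg.omega_lt)).mono fun b hb => ⟨hb, hd hb⟩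
  refine hP ((c.regL.ev_sub_FF hζ hd hs.up).mono fun v hv => ?_)
  exact (cof_col FF_sub).2 ⟨d, hv, hs, fun β hβ => hcof β hβ.1⟩

theorem Ctx.y2' (c : Ctx K 𝓕) : ∀ᶠ y in 𝓕, Y2 K (tr {ξ | Cof K (Iio ξ)} y)ᶜ := by
  refine c.y2_aux (S := {ξ | Cof K (Iio ξ)}ᶜ) (fun y w hw h h' => h ((mem_tr hw).1 h')) ?_
  intro hcon
  obtain ⟨ζ, hζ, hP, d, hd, hdc, hcof⟩ := c.regL2.cl_type c.reg.limit
    ((lt_nx K).trans (lt_nx _)) hcon
  have hs : Sm (nx K) d :=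
    (c.regL.col_lt_iff.1 (hdc ▸ lt_nx K)).mono fun b hb => ⟨hb, hd hb⟩
  refine hP ((c.regL.ev_sub_FF hζ hd hs).mono fun v hv h => ?_)
  exact c.reg.not_cof hdc hd hcof hv FF_sub ((cof_col FF_sub).1 h)

/-- sets of order type `K` that are closed at the places given by `A` -/
structure Cl (K : On) (A x : Set On) : Prop where
  sub : x ⊆ Iio (nx K)
  collt : ∀ α ∈ x, col x α < K
  onto : ∀ ξ < K, ∃ α ∈ x, col x α = ξ
  cl : ∀ α ∈ x, col x α ∈ A → ∀ β < α, ∃ γ ∈ x, β ≤ γ ∧ γ < α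

theorem Ctx.cl_of (c : Ctx K 𝓕) {A : Set On} (h : Y1 K A) :
    ∀ᶠ x in 𝓕, tt x ∉ A → Cl K A x := by
  have h1 := c.diag (P := fun α x => Typ K x → α ∈ x → tt x ∉ A → col x α ∈ A →
      ∀ β < α, ∃ γ ∈ x, β ≤ γ ∧ γ < α) fun α hα => by
    by_cases H : Cof K (Iio α)
    · obtain ⟨d, hd, hs, hcof⟩ := H
      filter_upwards [c.supset hs fun b hb => lt_trans (hd hb) hα] with x hx _ _ _ _ β hβ
      obtain ⟨γ, hγ, hle⟩ := hcof β hβ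
      exact ⟨γ, hx hγ, hle, hd hγ⟩
    · filter_upwards [c.tt_cl (h α hα H)] with x hx ht hαx h1 h2
      rw [ht.col_eq_ff hαx le_rfl] at h2
      exact absurd (hx.1 h2) h1
  filter_upwards [h1, c.typ] with x h1 ht hA
  exact ⟨ht.sub, ht.collt, ht.onto, fun α hα => h1 α hα ht hα hA⟩

theorem Ctx.exists_A (c : Ctx K 𝓕) : ∃ A, Y2 K A ∧ ∃ᶠ x in 𝓕, Cl K A x := by
  have := c.ne
  obtain ⟨y, h1, h2, h3⟩ := (c.y1.and (c.y2.and c.y2')).exists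
  set A := tr {ξ | Cof K (Iio ξ)} y
  by_cases H : ∃ᶠ x in 𝓕, tt x ∉ A
  · exact ⟨A, h2, (H.and_eventually (c.cl_of h1)).mono fun x hx => hx.2 hx.1⟩
  · have h4 : Y1 K Aᶜ := fun η hη hc => (h1 η hη hc).mono fun t ht => not_congr ht
    refine ⟨Aᶜ, h3, Eventually.frequently ?_⟩
    filter_upwards [Filter.not_frequently.1 H, c.cl_of h4] with x h5 h6
    exact h6 h5

end Pool.Agent.Lib.MP_e8440a_lc
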