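import Mathlib

/- Order types of sets of ordinals, small sets, closed unbounded sets. -/

open Set Order Filter

namespace Pool.Agent.Lib.MP_e8440a_lc

abbrev On := Ordinal.{0}

open Classical in
/-- `col W b` is the order type of the part of `W` below `b`. -/
noncomputable def col (W : Set On) : On → On :=
  fun β => WellFoundedLT.fix (motive := fun _ => On)
    (fun β ih => ⨆ b : Iio β, if b.1 ∈ W then ih b.1 b.2 + 1 else 0) β

open Classical in
theorem col_eq (W : Set On) (β : On) :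
    col W β = ⨆ b : Iio β, if b.1 ∈ W then col W b.1 + 1 else 0 := by
  unfold col
  rw [WellFoundedLT.fix_eq]

theorem lt_col_iff {W : Set On} {β ξ : On} :
    ξ < col W β ↔ ∃ b ∈ W, b < β ∧ ξ ≤ col W b := by
  classical
  rw [col_eq, Ordinal.lt_iSup_iff]
  constructor
  · rintro ⟨⟨b, hb⟩, h⟩
    by_cases hW : b ∈ W
    · simp only [hW, if_true] at h
      exact ⟨b, hW, hb, Order.lt_add_one_iff.1 h⟩
    · simp [hW] at h
  · rintro ⟨b, hW, hb, h⟩
    exact ⟨⟨b, hb⟩, by simp only [hW, if_true]; exact Order.lt_add_one_iff.2 h⟩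

theorem col_lt {W : Set On} {b β : On} (hb : b ∈ W) (h : b < β) : col W b < col W β :=
  lt_col_iff.2 ⟨b, hb, h, le_rfl⟩

theorem col_mono (W : Set On) {a b : On} (h : a ≤ b) : col W a ≤ col W b := by
  refine le_of_forall_lt fun ξ hξ => ?_
  obtain ⟨c, hc, hca, hξ⟩ := lt_col_iff.1 hξ
  exact lt_col_iff.2 ⟨c, hc, hca.trans_le h, hξ⟩

theorem exists_col_eq {W : Set On} {β ξ : On} (h : ξ < col W β) :
    ∃ b ∈ W, b < β ∧ col W b = ξ := by
  induction β using WellFoundedLT.induction with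
  | ind β ih =>
    obtain ⟨b, hb, hbβ, hξ⟩ := lt_col_iff.1 h
    rcases hξ.eq_or_lt with h1 | h1
    · exact ⟨b, hb, hbβ, h1.symm⟩
    · obtain ⟨c, hc, hcb, hc'⟩ := ih b hbβ h1
      exact ⟨c, hc, hcb.trans hbβ, hc'⟩

theorem col_lt_iff {W : Set On} {a b : On} (ha : a ∈ W) : col W a < col W b ↔ a < b := by
  refine ⟨fun h => ?_, col_lt ha⟩
  by_contra h'
  exact absurd (col_mono W (not_lt.1 h')) (not_le.2 h)

theorem col_le_iff {W : Set On} {a b : On} (hb : b ∈ W) : col W a ≤ col W b ↔ a ≤ b := by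
  rw [← not_lt, col_lt_iff hb, not_lt]

theorem lt_of_col_lt {W : Set On} {a b : On} (h : col W a < col W b) : a < b := by
  by_contra h'
  exact absurd (col_mono W (not_lt.1 h')) (not_le.2 h)

theorem col_inj {W : Set On} {a b : On} (ha : a ∈ W) (hb : b ∈ W) (h : col W a = col W b) :
    a = b :=
  le_antisymm ((col_le_iff hb).1 h.le) ((col_le_iff ha).1 h.ge)

theorem col_strictMonoOn (W : Set On) : StrictMonoOn (col W) W :=
  fun _ ha _ _ h => col_lt ha h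

theorem col_injOn (W : Set On) : InjOn (col W) W := fun _ ha _ hb h => col_inj ha hb h

theorem col_le_of_map {W W' : Set On} (σ : On → On) {β β' : On}
    (hσ : ∀ a ∈ W, ∀ b ∈ W, a < b → b < β → σ a < σ b)
    (hm : ∀ b ∈ W, b < β → σ b ∈ W' ∧ σ b < β') : col W β ≤ col W' β' := by
  induction β using WellFoundedLT.induction generalizing β' with
  | ind β ih =>
    refine le_of_forall_lt fun ξ hξ => ?_
    obtain ⟨b, hb, hbβ, hξ⟩ := lt_col_iff.1 hξ
    refine lt_col_iff.2 ⟨σ b, (hm b hb hbβ).1, (hm b hb hbβ).2, hξ.trans ?_⟩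
    exact ih b hbβ (fun a ha c hc hac hcb => hσ a ha c hc hac (hcb.trans hbβ))
      (fun c hc hcb => ⟨(hm c hc (hcb.trans hbβ)).1, hσ c hc b hb hcb hbβ⟩)

theorem col_eq_of_map {W W' : Set On} (σ : On → On) {β β' : On}
    (hσ : ∀ a ∈ W, ∀ b ∈ W, a < b → b < β → σ a < σ b)
    (hm : ∀ b ∈ W, b < β → σ b ∈ W' ∧ σ b < β')
    (hs : ∀ b' ∈ W', b' < β' → ∃ b ∈ W, b < β ∧ σ b = b') : col W β = col W' β' := by
  refine le_antisymm (col_le_of_map σ hσ hm) ?_
  clear hm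
  induction β using WellFoundedLT.induction generalizing β' with
  | ind β ih =>
    refine le_of_forall_lt fun ξ hξ => ?_
    obtain ⟨b', hb', hbβ', hξ⟩ := lt_col_iff.1 hξ
    obtain ⟨b, hb, hbβ, rfl⟩ := hs b' hb' hbβ'
    refine lt_col_iff.2 ⟨b, hb, hbβ, hξ.trans ?_⟩
    refine ih b hbβ (fun a ha c hc hac hcb => hσ a ha c hc hac (hcb.trans hbβ)) ?_
    intro c' hc' hcb'
    obtain ⟨c, hc, hcβ, rfl⟩ := hs c' hc' (hcb'.trans hbβ')
    refine ⟨c, hc, ?_, rfl⟩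
    by_contra hcb
    rcases (not_lt.1 hcb).eq_or_lt with h | h
    · subst h; exact lt_irrefl _ hcb'
    · exact lt_asymm hcb' (hσ b hb c hc h hcβ)

theorem col_congr {W W' : Set On} {β : On} (h : ∀ b < β, b ∈ W ↔ b ∈ W') :
    col W β = col W' β :=
  col_eq_of_map id (fun _ _ _ _ h _ => h) (fun b hb hbβ => ⟨(h b hbβ).1 hb, hbβ⟩)
    (fun b hb hbβ => ⟨b, (h b hbβ).2 hb, hbβ, rfl⟩)

theorem col_univ (β : On) : col univ β = β := by
  induction β using WellFoundedLT.induction with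
  | ind β ih =>
    refine eq_of_forall_lt_iff fun ξ => ?_
    rw [lt_col_iff]
    constructor
    · rintro ⟨b, -, hb, h⟩
      rw [ih b hb] at h
      exact h.trans_lt hb
    · intro h
      exact ⟨ξ, trivial, h, (ih ξ h).ge⟩

theorem col_eq_self {W : Set On} {β : On} (h : ∀ b < β, b ∈ W) : col W β = β := by
  rw [col_congr (W' := univ) (fun b hb => by simp [h b hb]), col_univ]

theorem col_le_of_lt {W : Set On} (m : On → On) {β γ : On}
    (hσ : ∀ a ∈ W, ∀ b ∈ W, a < b → b < β → m a < m b)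
    (hm : ∀ b ∈ W, b < β → m b < γ) : col W β ≤ γ := by
  have := col_le_of_map (W := W) (W' := univ) m hσ (fun b hb h => ⟨trivial, hm b hb h⟩)
  rwa [col_univ] at this

/-- collapsing twice -/
theorem col_col {W X x : Set On} {β : On}
    (h : ∀ b ∈ W, b < β → (b ∈ X ↔ col W b ∈ x)) :
    col x (col W β) = col (X ∩ W) β := by
  symm
  refine col_eq_of_map (col W) (fun a ha b _ hab _ => col_lt ha.2 hab)
    (fun b hb hbβ => ⟨(h b hb.2 hbβ).1 hb.1, col_lt hb.2 hbβ⟩) ?_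
  intro b' hb' hlt
  obtain ⟨b, hb, hbβ, rfl⟩ := exists_col_eq hlt
  exact ⟨b, ⟨(h b hb hbβ).2 hb', hb⟩, hbβ, rfl⟩

/-- invariance under an order preserving map -/
theorem col_image {W Y : Set On} {σ : On → On} (hσ : StrictMonoOn σ Y) (hW : W ⊆ Y) {β : On}
    (hβ : β ∈ Y) : col (σ '' W) (σ β) = col W β := by
  symm
  refine col_eq_of_map σ (fun a ha b hb hab _ => hσ (hW ha) (hW hb) hab)
    (fun b hb hbβ => ⟨mem_image_of_mem _ hb, hσ (hW hb) hβ hbβ⟩) ?_
  rintro _ ⟨b, hb, rfl⟩ hlt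
  exact ⟨b, hb, (hσ.lt_iff_lt (hW hb) hβ).1 hlt, rfl⟩

/-- the image of `A ∩ B` under the collapse of `B` -/
def Pc (A B : Set On) : Set On := col B '' (A ∩ B)

theorem Pc_image {A B Y : Set On} {σ : On → On} (hσ : StrictMonoOn σ Y) (hA : A ⊆ Y)
    (hB : B ⊆ Y) : Pc (σ '' A) (σ '' B) = Pc A B := by
  unfold Pc
  rw [← (hσ.injOn).image_inter hA hB, image_image]
  exact image_congr fun b hb => col_image hσ hB (hB hb.2)

/-- `A` has order type at most `γ` -/
def Le (A : Set On) (γ : On) : Prop := ∃ m : On → On, StrictMonoOn m A ∧ ∀ a ∈ A, m a < γ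

theorem Le.of_map {A B : Set On} {γ : On} (h : Le B γ) (σ : On → On) (hσ : StrictMonoOn σ A)
    (hm : ∀ a ∈ A, σ a ∈ B) : Le A γ := by
  obtain ⟨m, hm1, hm2⟩ := h
  exact ⟨m ∘ σ, fun a ha b hb hab => hm1 (hm a ha) (hm b hb) (hσ ha hb hab),
    fun a ha => hm2 _ (hm a ha)⟩

theorem Le.mono {A B : Set On} {γ : On} (h : Le B γ) (hAB : A ⊆ B) : Le A γ :=
  h.of_map id (fun _ _ _ _ h => h) hAB

/-! small sets -/

/-- `S` has fewer elements than the ordinal `θ` -/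
def Sm (θ : On) {ι : Type 1} (S : Set ι) : Prop :=
  Cardinal.mk S < Cardinal.lift.{1} θ.card

/-- `θ` is a regular uncountable initial ordinal -/
structure Reg (θ : On) : Prop where
  reg : θ.card.IsRegular
  ord : θ.card.ord = θ
  unc : Cardinal.aleph0 < θ.card

/-- the next initial ordinal -/
noncomputable def nx (θ : On) : On := (Order.succ θ.card).ord

section
variable {θ : On} {ι ι' : Type 1}

theorem Reg.lt_iff (h : Reg θ) {η : On} : η < θ ↔ η.card < θ.card := by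
  rw [← Cardinal.lt_ord, h.ord]

theorem Reg.sm_Iio (h : Reg θ) {η : On} : Sm θ (Iio η) ↔ η < θ := by
  unfold Sm
  rw [Cardinal.mk_Iio_ordinal, Cardinal.lift_lt, h.lt_iff]

theorem Sm.mono {S T : Set ι} (h : Sm θ T) (hST : S ⊆ T) : Sm θ S :=
  (Cardinal.mk_le_mk_of_subset hST).trans_lt h

theorem Sm.image {S : Set ι} (h : Sm θ S) (f : ι → ι') : Sm θ (f '' S) :=
  (Cardinal.mk_image_le).trans_lt h

theorem Sm.of_injOn {S : Set ι} {T : Set ι'} (h : Sm θ T) (f : ι → ι') (hf : InjOn f S)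
    (hm : ∀ a ∈ S, f a ∈ T) : Sm θ S := by
  refine lt_of_le_of_lt ?_ h
  exact Cardinal.mk_le_of_injective (f := fun a : S => (⟨f a.1, hm a.1 a.2⟩ : T))
    (fun a b hab => Subtype.ext (hf a.2 b.2 (congrArg Subtype.val hab)))

theorem Reg.sm_biUnion (h : Reg θ) {S : Set ι} {T : ι → Set ι'} (hS : Sm θ S)
    (hT : ∀ i ∈ S, Sm θ (T i)) : Sm θ (⋃ i ∈ S, T i) :=
  (Cardinal.card_biUnion_lt_iff_forall_of_isRegular (t := fun i _ => T i) h.reg.lift hS).2 hT

theorem Reg.sm_countable (h : Reg θ) {S : Set ι} (hS : S.Countable) : Sm θ S := by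
  refine lt_of_le_of_lt hS.le_aleph0 ?_
  have := h.unc
  rwa [← Cardinal.lift_lt.{0, 1}, Cardinal.lift_aleph0] at this

theorem Reg.sm_union (h : Reg θ) {S T : Set ι} (hS : Sm θ S) (hT : Sm θ T) : Sm θ (S ∪ T) :=
  (Cardinal.mk_union_le _ _).trans_lt (Cardinal.add_lt_of_lt h.reg.lift.aleph0_le hS hT)

theorem Reg.sm_prod (h : Reg θ) {S : Set ι} {T : Set ι'} (hS : Sm θ S) (hT : Sm θ T) :
    Sm θ (S ×ˢ T) := by
  have : S ×ˢ T = ⋃ i ∈ S, (fun j => (i, j)) '' T := by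
    ext ⟨a, b⟩; simp [and_comm]
  rw [this]
  exact h.sm_biUnion hS fun i _ => hT.image _

theorem Reg.limit (h : Reg θ) : IsSuccLimit θ := by
  rw [← h.ord]; exact Cardinal.isSuccLimit_ord h.reg.aleph0_le

theorem Reg.pos (h : Reg θ) : 0 < θ := h.limit.pos

theorem Reg.succ_lt (h : Reg θ) {a : On} (ha : a < θ) : a + 1 < θ := h.limit.add_one_lt ha

theorem Reg.omega_lt (h : Reg θ) : Ordinal.omega0 < θ := by
  rw [h.lt_iff, Ordinal.card_omega0]; exact h.unc

theorem Reg.not_sm (h : Reg θ) : ¬ Sm θ (Iio θ) := fun h' => lt_irrefl _ (h.sm_Iio.1 h')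

theorem Reg.bdd (h : Reg θ) {S : Set ι} (hS : Sm θ S) (φ : ι → On) (hφ : ∀ i ∈ S, φ i < θ) :
    ∃ b < θ, ∀ i ∈ S, φ i < b := by
  by_contra hc
  push Not at hc
  apply h.not_sm
  refine (h.sm_biUnion (T := fun i => Iio (φ i + 1)) hS
    (fun i hi => h.sm_Iio.2 (h.succ_lt (hφ i hi)))).mono ?_
  intro b hb
  obtain ⟨i, hi, hb⟩ := hc b hb
  exact mem_biUnion hi (Order.lt_add_one_iff.2 hb)

theorem Reg.col_lt_iff (h : Reg θ) {W : Set On} {β : On} :
    col W β < θ ↔ Sm θ (W ∩ Iio β) := by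
  rw [← h.sm_Iio]
  constructor
  · intro h'
    exact h'.of_injOn (col W) ((col_injOn W).mono inter_subset_left)
      (fun a ha => col_lt ha.1 ha.2)
  · intro h'
    refine (h'.image (col W)).mono fun ξ hξ => ?_
    obtain ⟨b, hb, hbβ, rfl⟩ := exists_col_eq hξ
    exact ⟨b, ⟨hb, hbβ⟩, rfl⟩

theorem card_nx (θ : On) : (nx θ).card = Order.succ θ.card := Cardinal.card_ord _

theorem Reg.next (h : Reg θ) : Reg (nx θ) where
  reg := by rw [card_nx]; exact Cardinal.isRegular_succ h.reg.aleph0_le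
  ord := by rw [card_nx]; rfl
  unc := by rw [card_nx]; exact h.unc.trans (Order.lt_succ _)

theorem lt_nx (θ : On) : θ < nx θ := Cardinal.lt_ord.2 (Order.lt_succ _)

theorem Sm.up {S : Set ι} (h : Sm θ S) : Sm (nx θ) S := by
  unfold Sm at *
  rw [card_nx]
  exact h.trans (Cardinal.lift_lt.2 (Order.lt_succ _))

theorem sm_nx_iff {S : Set ι} : Sm (nx θ) S ↔ Cardinal.mk S ≤ Cardinal.mk (Iio θ) := by
  unfold Sm
  rw [card_nx, Cardinal.lift_succ, Order.lt_succ_iff, Cardinal.mk_Iio_ordinal]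

theorem Sm.exists_inj {S : Set ι} (h : Sm (nx θ) S) :
    ∃ f : ι → On, InjOn f S ∧ ∀ a ∈ S, f a < θ := by
  classical
  obtain ⟨e⟩ := (Cardinal.le_def _ _).1 (sm_nx_iff.1 h)
  refine ⟨fun a => if ha : a ∈ S then (e ⟨a, ha⟩).1 else 0, ?_, ?_⟩
  · intro a ha b hb hab
    simp only [ha, hb, dif_pos] at hab
    exact congrArg Subtype.val (e.injective (Subtype.ext hab))
  · intro a ha
    simp only [ha, dif_pos]
    exact (e ⟨a, ha⟩).2

open Classical in
/-- a fixed injection of `η` into `θ` -/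
noncomputable def hh (θ η : On) : On → On :=
  if H : ∃ f : On → On, InjOn f (Iio η) ∧ ∀ a ∈ Iio η, f a < θ then H.choose else fun _ => 0

theorem Reg.hh_spec (h : Reg θ) {η : On} (hη : η < nx θ) :
    InjOn (hh θ η) (Iio η) ∧ ∀ a ∈ Iio η, hh θ η a < θ := by
  have H := (h.next.sm_Iio.2 hη).exists_inj
  unfold hh
  rw [dif_pos H]
  exact H.choose_spec

theorem Reg.hh_inj (h : Reg θ) {η a b : On} (hη : η < nx θ) (ha : a < η) (hb : b < η)
    (hab : hh θ η a = hh θ η b) : a = b := (h.hh_spec hη).1 ha hb hab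

theorem Reg.hh_lt (h : Reg θ) {η a : On} (hη : η < nx θ) (ha : a < η) : hh θ η a < θ :=
  (h.hh_spec hη).2 a ha

/-- the preimage of `S` under the fixed injection of `η` into `θ` -/
def XX (θ η : On) (S : Set On) : Set On := {β | β < η ∧ hh θ η β ∈ S}

theorem Reg.sm_XX (h : Reg θ) {η θ' : On} (hη : η < nx θ) {S : Set On} (hS : Sm θ' S) :
    Sm θ' (XX θ η S) :=
  hS.of_injOn (hh θ η) (fun _ ha _ hb hab => h.hh_inj hη ha.1 hb.1 hab) (fun _ ha => ha.2)

/-! closed unbounded sets -/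

/-- the filter of sets containing all closure points of some function -/
def clF (θ : On) : Filter On where
  sets := {S | ∃ φ : On → On, (∀ α < θ, φ α < θ) ∧
    ∀ v < θ, 0 < v → (∀ α < v, φ α < v) → v ∈ S}
  univ_sets := ⟨id, fun _ h => h, fun _ _ _ _ => trivial⟩
  sets_of_superset := by
    rintro S T ⟨φ, h1, h2⟩ hST
    exact ⟨φ, h1, fun v hv h0 hc => hST (h2 v hv h0 hc)⟩
  inter_sets := by
    rintro S T ⟨φ, h1, h2⟩ ⟨ψ, h3, h4⟩
    refine ⟨fun α => max (φ α) (ψ α), fun α hα => max_lt (h1 α hα) (h3 α hα), ?_⟩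
    intro v hv h0 hc
    exact ⟨h2 v hv h0 fun α hα => (max_lt_iff.1 (hc α hα)).1,
      h4 v hv h0 fun α hα => (max_lt_iff.1 (hc α hα)).2⟩

theorem mem_clF {S : Set On} : S ∈ clF θ ↔ ∃ φ : On → On, (∀ α < θ, φ α < θ) ∧
    ∀ v < θ, 0 < v → (∀ α < v, φ α < v) → v ∈ S := Iff.rfl

theorem ev_clF {P : On → Prop} : (∀ᶠ v in clF θ, P v) ↔ ∃ φ : On → On, (∀ α < θ, φ α < θ) ∧
    ∀ v < θ, 0 < v → (∀ α < v, φ α < v) → P v := Iff.rfl

theorem cl_lt (θ : On) : ∀ᶠ v in clF θ, v < θ := ⟨id, fun _ h => h, fun _ h _ _ => h⟩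

theorem cl_pos (θ : On) : ∀ᶠ v in clF θ, 0 < v := ⟨id, fun _ h => h, fun _ _ h _ => h⟩

theorem cl_closed {φ : On → On} (h : ∀ α < θ, φ α < θ) : ∀ᶠ v in clF θ, ∀ α < v, φ α < v :=
  ⟨φ, h, fun _ _ _ h => h⟩

theorem cl_gt {a : On} (ha : a < θ) : ∀ᶠ v in clF θ, a < v :=
  ⟨fun _ => a, fun _ _ => ha, fun _ _ h0 h => h 0 h0⟩

theorem Reg.cl_ball (h : Reg θ) {S : Set ι} (hS : Sm θ S) {P : ι → On → Prop}
    (hP : ∀ i ∈ S, ∀ᶠ v in clF θ, P i v) : ∀ᶠ v in clF θ, ∀ i ∈ S, P i v := by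
  classical
  choose! φ h1 h2 using fun i hi => ev_clF.1 (hP i hi)
  choose! b hb1 hb2 using fun α (hα : α < θ) => h.bdd hS (fun i => φ i α) fun i hi => h1 i hi α hα
  refine ⟨b, hb1, fun v hv h0 hc i hi => h2 i hi v hv h0 fun α hα => ?_⟩
  exact (hb2 α (hα.trans hv) i hi).trans (hc α hα)

theorem Reg.cl_neBot (h : Reg θ) : (clF θ).NeBot := by
  rw [Filter.neBot_iff, Ne, ← Filter.empty_mem_iff_bot]
  rintro ⟨φ, h1, h2⟩
  choose! b hb1 hb2 using fun α (hα : α < θ) =>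
    h.bdd (h.sm_Iio.2 hα) φ fun i hi => h1 i (lt_trans hi hα)
  have hlt : ∀ n : ℕ, b^[n] 1 < θ := by
    intro n
    induction n with
    | zero => simpa using h.succ_lt h.pos
    | succ n ih => rw [Function.iterate_succ_apply']; exact hb1 _ ih
  have hn : Ordinal.nfp b 1 < θ := by
    have := Cardinal.nfp_lt_ord_of_isRegular (f := b) h.reg h.unc.ne' (by rw [h.ord]; exact hb1)
      (a := 1) (by rw [h.ord]; exact hlt 0)
    rwa [h.ord] at this
  refine h2 _ hn (lt_of_lt_of_le zero_lt_one (Ordinal.le_nfp b 1)) fun α hα => ?_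
  obtain ⟨n, hn'⟩ := Ordinal.lt_nfp_iff.1 hα
  refine lt_of_lt_of_le (hb2 _ (hlt n) α hn') ?_
  have := Ordinal.iterate_le_nfp b 1 (n + 1)
  rwa [Function.iterate_succ_apply'] at this

theorem Reg.cl_exists (h : Reg θ) {P : On → Prop} (hP : ∀ᶠ v in clF θ, P v) :
    ∃ v < θ, P v := by
  have := h.cl_neBot
  exact ((cl_lt θ).and hP).exists

theorem Reg.cl_lim (h : Reg θ) {P : On → Prop} (hP : ∀ᶠ v in clF θ, P v) :
    ∀ᶠ s in clF θ, ∀ α < s, ∃ v, P v ∧ α < v ∧ v < s := by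
  choose! b hb1 hb2 using fun α (hα : α < θ) => h.cl_exists (hP.and (cl_gt hα))
  filter_upwards [cl_closed hb1, cl_lt θ] with s hs hsθ α hα
  exact ⟨b α, (hb2 α (hα.trans hsθ)).1, (hb2 α (hα.trans hsθ)).2, hs α hα⟩

end

end Pool.Agent.Lib.MP_e8440a_lc
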