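import Pool.Agent.Lib.MP_e8440a_lc.Rep

/- A small set containing the pieces of all filtrations. -/

open Set Order Filter

namespace Pool.Agent.Lib.MP_e8440a_lc

variable {K : On} {𝓕 : Filter (Set On)}

def IsPiece (K : On) (a : Set On) : Prop :=
  ∃ η < nx K, ∃ ξ < K, ∃ ξ' < K, a = Pc (FF K η ξ) (FF K η ξ')

theorem Typ.tr_eq {x a : Set On} (h : Typ K x) {β : On} (hβ : β ∈ x) (ha : a ⊆ Iio β) :
    tr a x = Pc a (FF K β (tt x)) := by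
  unfold tr Pc
  have : a ∩ x = a ∩ FF K β (tt x) := by
    ext b
    exact ⟨fun hb => ⟨hb.1, (h.init β hβ b (ha hb.1)).1 hb.2⟩,
      fun hb => ⟨hb.1, (h.init β hβ b (ha hb.1)).2 hb.2⟩⟩
  rw [this]
  exact image_congr fun b hb => h.col_eq_ff hβ (le_of_lt (ha hb.1))

theorem Ctx.count (c : Ctx K 𝓕) :
    Sm (nx (nx K)) {a : Set On | (∃ β < nx K, a ⊆ Iio β) ∧ ∃ᶠ x in 𝓕, IsPiece K (tr a x)} := by
  classical
  let Ψ : On × On × On × On → Set On → Set On → Prop := fun p a x =>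
    ∃ η < p.1, hh K p.1 η = col x p.2.1 ∧
      tr a x = Pc (FF K η (col x p.2.2.1)) (FF K η (col x p.2.2.2))
  have hL := c.regL2.sm_Iio.2 (lt_nx (nx K))
  refine (c.regL2.sm_biUnion (S := Iio (nx K) ×ˢ Iio (nx K) ×ˢ Iio (nx K) ×ˢ Iio (nx K))
    (T := fun p => {a : Set On | a ⊆ Iio (nx K) ∧ ∃ᶠ x in 𝓕, Ψ p a x})
    (c.regL2.sm_prod hL (c.regL2.sm_prod hL (c.regL2.sm_prod hL hL))) fun p hp => Sm.up ?_).mono ?_
  · refine c.sat _ (Ψ p) (fun a ha => ha.2) fun a ha a' ha' hne => ?_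
    have : ∃ β < nx K, ¬ (β ∈ a ↔ β ∈ a') := by
      by_contra hc
      push Not at hc
      exact hne (Set.ext fun β => ⟨fun h => (hc β (ha.1 h)).1 h, fun h => (hc β (ha'.1 h)).2 h⟩)
    obtain ⟨β, hβ, hβ'⟩ := this
    filter_upwards [c.fine β hβ] with x hx
    rintro ⟨⟨η, h1, h2, h3⟩, η', h4, h5, h6⟩
    have := c.reg.hh_inj hp.1 h1 h4 (h2.trans h5.symm)
    subst this
    exact hβ' (by rw [← mem_tr hx, ← mem_tr (a := a') hx, h3, h6])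
  · rintro a ⟨⟨β, hβ, ha⟩, hf⟩
    have ex : ∀ t, ∃ η < nx K, IsPiece K (Pc a (FF K β t)) →
        ∃ ξ < K, ∃ ξ' < K, Pc a (FF K β t) = Pc (FF K η ξ) (FF K η ξ') := by
      intro t
      by_cases H : IsPiece K (Pc a (FF K β t))
      · obtain ⟨η, hη, H⟩ := H
        exact ⟨η, hη, fun _ => H⟩
      · exact ⟨0, c.regL.pos, fun h => absurd h H⟩
    choose η hη1 hη2 using ex
    obtain ⟨ζ, hζ, hζ'⟩ := c.regL.bdd (c.regL.sm_Iio.2 (lt_nx K)) η fun t _ => hη1 t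
    have h1 : ∃ᶠ x in 𝓕, ∃ i < K, ∃ ξ < K, ∃ ξ' < K, ∃ η < ζ, hh K ζ η = i ∧
        tr a x = Pc (FF K η ξ) (FF K η ξ') := by
      refine ((hf.and_eventually c.typ).and_eventually (c.fine β hβ)).mono ?_
      rintro x ⟨⟨h1, ht⟩, hx⟩
      rw [ht.tr_eq hx ha] at h1 ⊢
      obtain ⟨ξ, hξ, ξ', hξ', he⟩ := hη2 _ h1
      exact ⟨_, c.reg.hh_lt hζ (hζ' _ ht.tlt), ξ, hξ, ξ', hξ', η _, hζ' _ ht.tlt, rfl, he⟩
    obtain ⟨α1, hα1, h2⟩ := c.locK h1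
    obtain ⟨α2, hα2, h3⟩ := c.locK (h2.mono fun x hx => hx.2)
    obtain ⟨α3, hα3, h4⟩ := c.locK (h3.mono fun x hx => hx.2)
    exact mem_biUnion (x := (ζ, α1, α2, α3)) ⟨hζ, hα1, hα2, hα3⟩
      ⟨fun b hb => lt_trans (ha hb) hβ, h4.mono fun x hx => hx.2⟩

/-- `r` contains the pieces of all filtrations along clubs -/
def Am (K : On) (r : Set (Set On)) : Prop :=
  ∀ η < nx K, ∃ C ∈ clF K, ∀ ξ ∈ C, ∀ ξ' ∈ C, Pc (FF K η ξ) (FF K η ξ') ∈ r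

/-- the reflection to `y` of the family enumerated by `u` -/
def RR (u : On → Set On) (y : Set On) : Set (Set On) := {w | ∃ α ∈ y, w = tr (u α) y}

theorem Pc_FF_sub {θ η v v' : On} : Pc (FF θ η v) (FF θ η v') ⊆ Iio (ff θ η v') := by
  rintro _ ⟨b, hb, rfl⟩
  exact col_lt hb.2 hb.2.1

theorem Ctx.exists_u (c : Ctx K 𝓕) : ∃ u : On → Set On, ∀ᶠ y in 𝓕, Am K (RR u y) := by
  classical
  obtain ⟨f, hf1, hf2⟩ := c.count.exists_inj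
  set R := {a : Set On | (∃ β < nx K, a ⊆ Iio β) ∧ ∃ᶠ x in 𝓕, IsPiece K (tr a x)} with hR
  let u : On → Set On := fun α => if H : ∃ a ∈ R, f a = α then H.choose else ∅
  have hu : ∀ a ∈ R, u (f a) = a := by
    intro a ha
    have H : ∃ a' ∈ R, f a' = f a := ⟨a, ha, rfl⟩
    simp only [u, dif_pos H]
    exact hf1 H.choose_spec.1 ha H.choose_spec.2
  refine ⟨u, c.loc_all fun ζ hζ => ?_⟩
  obtain ⟨D, hD, hA⟩ := c.pcs hζ
  have hmem : ∀ v < nx K, ∀ v' < nx K, v ∈ D → v' ∈ D →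
      Pc (FF (nx K) ζ v) (FF (nx K) ζ v') ∈ R := by
    intro v hv v' hv' hvD hvD'
    refine ⟨⟨_, c.regL.col_FF_lt hζ hv' ζ, Pc_FF_sub⟩, ?_⟩
    have := c.ne
    refine Eventually.frequently ?_
    filter_upwards [hA, c.typ, c.fine v hv, c.fine v' hv'] with z h1 ht h2 h3
    exact ⟨_, h1.lt, _, ht.collt v h2, _, ht.collt v' h3, (h1.pc v hvD h2 v' hvD' h3).symm⟩
  have hcl := c.closed2 (p := fun v v' => v ∈ D ∧ v' ∈ D)
    (φ := fun v v' => f (Pc (FF (nx K) ζ v) (FF (nx K) ζ v')))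
    fun v hv v' hv' h => hf2 _ (hmem v hv v' hv' h.1 h.2)
  filter_upwards [hA, hcl, c.pull hD, c.sub] with y h1 h2 h3 h4
  refine ⟨_, h3, ?_⟩
  rintro _ ⟨v, hv, hvy, rfl⟩ _ ⟨v', hv', hvy', rfl⟩
  refine ⟨_, h2 v hvy v' hvy' ⟨hv, hv'⟩, ?_⟩
  rw [hu _ (hmem v (h4 hvy) v' (h4 hvy') hv hv'), h1.pc v hv hvy v' hv' hvy']

end Pool.Agent.Lib.MP_e8440a_lc
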