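import Pool.Agent.Lib.MP_e8440a_lc.Good

/- Closed sets of order type `K` have good traces. -/

open Set Order Filter

namespace Pool.Agent.Lib.MP_e8440a_lc

variable {K : On} {𝓕 : Filter (Set On)}

def QQ (K : On) (A : Set On) (t : On) (r : Set (Set On)) : Prop :=
  ∀ x, Cl K A x → ∃ ζ ∈ x, ∀ᶠ ξ' in clF K, Good K (Pc x (FF K ζ ξ')) t r

open Classical in
/-- the element of `x` with index `ξ` -/
noncomputable def en (x : Set On) (ξ : On) : On :=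
  if H : ∃ α ∈ x, col x α = ξ then H.choose else 0

theorem en_spec {x : Set On} {ξ : On} (H : ∃ α ∈ x, col x α = ξ) :
    en x ξ ∈ x ∧ col x (en x ξ) = ξ := by
  unfold en
  rw [dif_pos H]
  exact H.choose_spec

theorem en_col {x : Set On} {α : On} (h : α ∈ x) : en x (col x α) = α :=
  col_inj (en_spec ⟨α, h, rfl⟩).1 h (en_spec ⟨α, h, rfl⟩).2

theorem Cl.en_lt {A x : Set On} (h : Cl K A x) {ξ ξ' : On} (hlt : ξ < ξ') (hξ' : ξ' < K) :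
    en x ξ < en x ξ' := by
  refine lt_of_col_lt (W := x) ?_
  rw [(en_spec (h.onto ξ (hlt.trans hξ'))).2, (en_spec (h.onto ξ' hξ')).2]
  exact hlt

theorem Cl.exists_sup (hK : Reg K) {A x : Set On} (h : Cl K A x) :
    ∃ η < nx K, (∀ α ∈ x, α < η) ∧ ∀ β < η, ∃ α ∈ x, β < α := by
  have hs : Sm (nx K) x :=
    (hK.next.sm_Iio.2 (lt_nx K)).of_injOn (col x) (col_injOn x) h.collt
  obtain ⟨b, hb, hb'⟩ := hK.next.bdd hs id fun α hα => h.sub hα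
  have hne : ({b | ∀ α ∈ x, α < b} : Set On).Nonempty := ⟨b, hb'⟩
  refine ⟨sInf {b | ∀ α ∈ x, α < b},
    (csInf_le' (s := {b | ∀ α ∈ x, α < b}) hb').trans_lt hb, csInf_mem hne, fun β hβ => ?_⟩
  have : ¬ ∀ α ∈ x, α < β := fun h' =>
    absurd (csInf_le' (s := {b | ∀ α ∈ x, α < b}) h') (not_le.2 hβ)
  push Not at this
  obtain ⟨α, hα, hle⟩ := this
  obtain ⟨α', hα', he⟩ := h.onto _ (hK.succ_lt (h.collt α hα))
  exact ⟨α', hα', hle.trans_lt (lt_of_col_lt (he ▸ Order.lt_add_one_iff.2 le_rfl))⟩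

/-- a closed set is determined at many places -/
theorem Ctx.determined (c : Ctx K 𝓕) {A : Set On} {X : Set On → Set On}
    (h : ∃ᶠ y in 𝓕, Cl K A (X y)) :
    ∃ q : Set On → Prop, (∃ᶠ y in 𝓕, q y) ∧ (∀ y, q y → Cl K A (X y)) ∧
      ∀ᶠ ξ in clF (nx K), (∀ᶠ t in clF K, ff K ξ t ∈ A) →
        ∃ d < nx (nx K), ∀ᶠ y in 𝓕, q y → en (X y) (col y ξ) = gg K d y := by
  classical
  obtain ⟨β', hβ', hq⟩ := c.loc
    (P := fun η y => Cl K A (X y) ∧ (∀ α ∈ X y, α < η) ∧ ∀ β < η, ∃ α ∈ X y, β < α)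
    (h.mono fun y hy => by
      obtain ⟨η, hη, h1⟩ := hy.exists_sup c.reg
      exact ⟨η, hη, hy, h1⟩)
  set q : Set On → Prop := fun y => Cl K A (X y) ∧ (∀ α ∈ X y, α < gg K β' y) ∧
    ∀ β < gg K β' y, ∃ α ∈ X y, β < α with hqdef
  refine ⟨q, hq, fun y hy => hy.1, ?_⟩
  let σ : On → Set On → On := fun ξ y => en (X y) (col y ξ)
  have hσ : ∀ ξ < nx K, ∀ᶠ y in 𝓕, q y → σ ξ y ∈ X y ∧ col (X y) (σ ξ y) = col y ξ := by
    intro ξ hξ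
    filter_upwards [c.typ, c.fine ξ hξ] with y ht hy hq
    exact en_spec (hq.1.onto _ (ht.collt ξ hy))
  let V : On → Set On := fun ξ => {ζ | ζ < nx (nx K) ∧ ∃ᶠ y in 𝓕, q y ∧ gg K ζ y = σ ξ y}
  have hV : ∀ ξ, Sm (nx K) (V ξ) := fun ξ => c.sm_vals q (σ ξ)
  have hV' : ∀ ξ < nx K, ∀ ζ ∈ V ξ, ζ < β' := by
    intro ξ hξ ζ hζ
    refine c.lt_of_gg_lt hζ.1 ((hζ.2.and_eventually (hσ ξ hξ)).mono ?_)
    rintro y ⟨⟨h1, h2⟩, h3⟩
    exact h2 ▸ h1.2.1 _ (h3 h1).1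
  have ex0 : ∀ β < β', ∃ ξ < nx K, ∀ᶠ y in 𝓕, q y → gg K β y < σ ξ y := by
    intro β hβ
    have ex : ∀ y, ∃ α, q y → gg K β y < gg K β' y → α ∈ X y ∧ gg K β y < α := by
      intro y
      by_cases H : q y ∧ gg K β y < gg K β' y
      · obtain ⟨α, hα, hα'⟩ := H.1.2.2 _ H.2
        exact ⟨α, fun _ _ => ⟨hα, hα'⟩⟩
      · exact ⟨0, fun h1 h2 => absurd ⟨h1, h2⟩ H⟩
    choose a ha using ex
    obtain ⟨ξ, hξ, h1⟩ := c.bnd fun y => col (X y) (a y)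
    refine ⟨ξ, hξ, ?_⟩
    filter_upwards [h1, c.gg_mono hβ' hβ, hσ ξ hξ] with y h1 h2 h3 hq
    obtain ⟨h4, h5⟩ := ha y hq h2
    exact h5.trans (lt_of_col_lt ((h1 (hq.1.collt _ h4)).trans_eq (h3 hq).2.symm))
  choose! ξ0 hξ1 hξ2 using ex0
  choose! b hb1 hb2 using fun ξ (hξ : ξ < nx K) =>
    c.regL.bdd (hV ξ) ξ0 fun β hβ => hξ1 β (hV' ξ hξ β hβ)
  filter_upwards [cl_closed hb1, cl_lt (nx K)] with ξ hcl hξ hA
  obtain ⟨d0, hd0, hd0'⟩ := c.regL2.bdd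
    (c.regL.sm_biUnion (c.regL.sm_Iio.2 hξ) fun ξ' _ => hV ξ').up id (by
      intro β hβ
      obtain ⟨ξ', -, hβ⟩ := mem_iUnion₂.1 hβ
      exact hβ.1)
  set U : Set On := {d | ∀ ξ' < ξ, ∀ β ∈ V ξ', β < d} with hU
  have hd0U : d0 ∈ U := fun ξ' h1 β h2 => hd0' β (mem_biUnion h1 h2)
  have hdU : sInf U ∈ U := csInf_mem ⟨d0, hd0U⟩
  have hdlt : sInf U < nx (nx K) := (csInf_le' hd0U).trans_lt hd0
  refine ⟨sInf U, hdlt, ?_⟩
  have h1 := c.diag (P := fun ξ' y => ξ' < ξ → q y → σ ξ' y < gg K (sInf U) y) fun ξ' hξ' => by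
    by_cases H : ξ' < ξ
    swap
    · exact Eventually.of_forall fun _ h => absurd h H
    by_contra hc
    rw [Filter.not_eventually] at hc
    obtain ⟨ζ, hζ, h2⟩ := c.loc
      (P := fun η y => q y ∧ η = σ ξ' y ∧ gg K (sInf U) y ≤ σ ξ' y)
      ((hc.and_eventually (hσ ξ' hξ')).mono fun y hy => by
        obtain ⟨h3, h4⟩ := hy
        push Not at h3
        exact ⟨_, (h3.2.1).1.sub (h4 h3.2.1).1, h3.2.1, rfl, h3.2.2⟩)
    have h3 : ζ < sInf U := hdU ξ' H ζ ⟨hζ, h2.mono fun y hy => ⟨hy.1, hy.2.1⟩⟩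
    obtain ⟨y, h4, h5⟩ := (h2.and_eventually (c.gg_mono hdlt h3)).exists
    exact absurd h5 (not_lt.2 (h4.2.2.trans h4.2.1.ge))
  have h2 := c.diagX hdlt (P := fun β y => q y → gg K β y < σ ξ y) fun β hβ => by
    have : β ∉ U := fun h' => absurd (csInf_le' h') (not_le.2 hβ)
    simp only [hU, mem_ofPred_eq] at this
    push Not at this
    obtain ⟨ξ', hξ', β'', hβ'', hle⟩ := this
    have h3 := hV' ξ' (hξ'.trans hξ) β'' hβ''
    have h4 : ξ0 β'' < ξ := (hb2 ξ' (hξ'.trans hξ) β'' hβ'').trans (hcl ξ' hξ')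
    filter_upwards [c.gg_mono' hβ''.1 hle, hξ2 β'' h3, c.fine _ (hξ1 β'' h3), c.fine ξ hξ,
      c.typ] with y h5 h6 h7 h8 ht hq
    exact (h5.trans_lt (h6 hq)).trans (hq.1.en_lt (col_lt h7 h4) (ht.collt ξ h8))
  filter_upwards [h1, h2, c.coh hdlt, hσ ξ hξ, c.tt_cl hA, c.typ, c.fine ξ hξ]
    with y h1 h2 h3 h4 h5 ht h6 hq
  obtain ⟨h7, h8⟩ := h4 hq
  refine le_antisymm (le_of_forall_lt fun β hβ => ?_) (le_of_forall_lt fun β hβ => ?_)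
  · obtain ⟨γ, hγ, hle, hlt⟩ := hq.1.cl _ h7 (by
      rw [h8, ht.col_eq_ff h6 le_rfl]; exact h5) β hβ
    obtain ⟨ξ', hξ', hξ'', he⟩ := exists_col_eq ((col_lt hγ hlt).trans_eq h8)
    have := h1 ξ' hξ' hξ'' hq
    simp only [σ, he, en_col hγ] at this
    exact hle.trans_lt this
  · obtain ⟨β', hβ', -, rfl⟩ := exists_col_eq hβ
    rw [← h3 β' hβ']
    exact h2 β' hβ' hq

theorem Ctx.qq (c : Ctx K 𝓕) (u : On → Set On) {A : Set On} (hA : Y2 K A) :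
    ∀ᶠ y in 𝓕, QQ K A (tt y) (RR u y) := by
  classical
  have ex : ∀ y, ∃ x, ¬ QQ K A (tt y) (RR u y) → Cl K A x ∧
      ∀ ζ ∈ x, ¬ ∀ᶠ ξ' in clF K, Good K (Pc x (FF K ζ ξ')) (tt y) (RR u y) := by
    intro y
    by_cases H : QQ K A (tt y) (RR u y)
    · exact ⟨∅, fun h => absurd H h⟩
    · unfold QQ at H
      push Not at H
      obtain ⟨x, h1, h2⟩ := H
      exact ⟨x, fun _ => ⟨h1, fun ζ hζ => not_eventually.2 (h2 ζ hζ)⟩⟩
  choose X0 hX0 using ex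
  by_contra hc
  rw [Filter.not_eventually] at hc
  let X : Set On → Set On := fun y => if QQ K A (tt y) (RR u y) then ∅ else X0 y
  have hX : ∀ y, Cl K A (X y) →
      ∀ ζ ∈ X y, ¬ ∀ᶠ ξ' in clF K, Good K (Pc (X y) (FF K ζ ξ')) (tt y) (RR u y) := by
    intro y _
    by_cases H : QQ K A (tt y) (RR u y)
    · simp [X, H]
    · simp only [X, if_neg H]
      exact (hX0 y H).2
  obtain ⟨q, hq, hq', hE⟩ := c.determined (A := A) (X := X) (hc.mono fun y hy => by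
    simp only [X, if_neg hy]
    exact (hX0 y hy).1)
  set S : Set On := {ξ | ξ < nx K ∧
    ∃ d < nx (nx K), ∀ᶠ y in 𝓕, q y → en (X y) (col y ξ) = gg K d y} with hS
  have hS' : ¬ Sm (nx K) (S ∩ Iio (nx K)) := c.regL.not_sm_of_freq
    ((hA.and_eventually (hE.and (cl_lt _))).mono fun ξ hξ => ⟨hξ.2.2, hξ.2.1 hξ.1⟩)
  obtain ⟨ξ0, hξ0, -, hcol⟩ := c.regL.exists_col hS' (lt_nx K)
  choose! d hd1 hd2 using fun ξ (hξ : ξ ∈ S) => hξ.2
  have hmem : ∀ ξ ∈ S, ∀ᶠ y in 𝓕, q y → gg K (d ξ) y ∈ X y := by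
    intro ξ hξ
    filter_upwards [hd2 ξ hξ, c.typ, c.fine ξ hξ.1] with y h1 ht h2 hy
    rw [← h1 hy]
    exact (en_spec ((hq' y hy).onto _ (ht.collt ξ h2))).1
  have hmono : StrictMonoOn d S := by
    intro a ha b hb hab
    refine c.lt_of_gg_lt (hd1 a ha) ((hq.and_eventually ((hd2 a ha).and ((hd2 b hb).and
      (c.typ.and ((c.fine a ha.1).and (c.fine b hb.1)))))).mono ?_)
    rintro y ⟨hy, h1, h2, ht, h3, h4⟩
    rw [← h1 hy, ← h2 hy]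
    exact (hq' y hy).en_lt (col_lt h3 hab) (ht.collt b h4)
  set s := d '' (S ∩ Iio ξ0) with hs
  have hζ := hd1 ξ0 hξ0
  have hs1 : s ⊆ Iio (d ξ0) := by
    rintro _ ⟨ξ, hξ, rfl⟩
    exact hmono hξ.1 hξ0 hξ.2
  have hs2 : Sm (nx K) s := (c.regL.col_lt_iff.1 (hcol ▸ lt_nx K)).image d
  have hs3 : ¬ Sm K s := fun h' => lt_irrefl K (by
    conv_lhs => rw [← hcol]
    exact c.reg.col_lt_iff.2 (h'.of_injOn d (hmono.injOn.mono inter_subset_left)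
      fun a ha => mem_image_of_mem d ha))
  obtain ⟨D, hD, hAg⟩ := c.pcs hζ
  have h1 := c.diag (P := fun v y => s ⊆ FF (nx K) (d ξ0) v →
      Good K (tr (col (FF (nx K) (d ξ0) v) '' s) y) (tt y) (RR u y)) fun v hv => by
    by_cases H : s ⊆ FF (nx K) (d ξ0) v
    swap
    · exact Eventually.of_forall fun _ h => absurd h H
    refine (c.good u ?_ fun h' => hs3 ?_).mono fun _ h _ => h
    · rintro _ ⟨β, -, rfl⟩
      exact c.regL.col_FF_lt hζ hv β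
    · exact h'.of_injOn _ ((col_injOn _).mono H) fun a ha => mem_image_of_mem _ ha
  have h2 := c.diagX hζ (P := fun β y => β ∈ s → q y → gg K β y ∈ X y) fun β _ => by
    by_cases H : β ∈ s
    swap
    · exact Eventually.of_forall fun _ h => absurd h H
    obtain ⟨ξ, hξ, rfl⟩ := H
    exact (hmem ξ hξ.1).mono fun _ h _ => h
  obtain ⟨y, hy, h1, h2, h3, h4, h5⟩ := (hq.and_eventually (h1.and (h2.and (hAg.and
    ((hmem ξ0 hξ0).and (c.pull (inter_mem hD (c.regL.ev_sub_FF hζ hs1 hs2)))))))).exists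
  refine hX y (hq' y hy) _ (h4 hy) (h5.mono ?_)
  rintro _ ⟨v, hv, hvy, rfl⟩
  refine (h1 v hvy hv.2).mono ?_
  rintro _ ⟨_, ⟨⟨β, hβ, rfl⟩, hβy⟩, rfl⟩
  obtain ⟨h6, h7, h8⟩ := h3.elt v hv.1 hvy β (hv.2 hβ) hβy
  exact ⟨_, ⟨h2 β h6 hβ hy, h7⟩, h8⟩

end Pool.Agent.Lib.MP_e8440a_lc
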