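import Pool.Agent.Lib.MP_e8440a_lc.Cofin

/- Sets that cannot be broken into few small pieces. -/

open Set Order Filter

namespace Pool.Agent.Lib.MP_e8440a_lc

variable {K : On} {𝓕 : Filter (Set On)}

theorem Le.image {B : Set On} {γ : On} (h : Le B γ) {σ : On → On} (hσ : StrictMonoOn σ B) :
    Le (σ '' B) γ := by
  classical
  refine h.of_map (Function.invFunOn σ B) ?_ ?_
  · rintro _ ⟨a, ha, rfl⟩ _ ⟨b, hb, rfl⟩ hab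
    rw [hσ.injOn.leftInvOn_invFunOn ha, hσ.injOn.leftInvOn_invFunOn hb]
    exact (hσ.lt_iff_lt ha hb).1 hab
  · rintro _ ⟨a, ha, rfl⟩
    rw [hσ.injOn.leftInvOn_invFunOn ha]
    exact ha

/-- `k` splits `A` into few small pieces -/
def Break (t : On) (k : On → On) (A : Set On) : Prop :=
  ∃ γ < t, Le (k '' A) γ ∧ ∀ v, Le (A ∩ k ⁻¹' {v}) γ

/-- the first stage in `D` at which `b` appears -/
noncomputable def kk (K η ρ : On) (D : Set On) (b : On) : On :=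
  sInf {v | v ∈ D ∧ b ∈ Pc (FF K η v) (FF K η ρ)}

def Good (K : On) (e : Set On) (t : On) (r : Set (Set On)) : Prop :=
  ∀ η < nx K, ∀ C ∈ clF K, ∃ D ∈ clF K, D ⊆ C ∧ ∀ ρ ∈ D, ∀ w ∈ r,
    ∀ A ⊆ w ∩ Iio (ff K η ρ), e ⊆ col w '' A → ¬ Break t (kk K η ρ D) A

theorem Good.mono {e b : Set On} {t : On} {r : Set (Set On)} (h : Good K b t r) (hb : b ⊆ e) :
    Good K e t r := by
  intro η hη C hC
  obtain ⟨D, hD, h1, h2⟩ := h η hη C hC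
  exact ⟨D, hD, h1, fun ρ hρ w hw A hA he => h2 ρ hρ w hw A hA (hb.trans he)⟩

theorem Reg.fin1 (h : Reg K) {T : Set On} {θ γ : On} (hT : T ⊆ Iio θ) (hs : ¬ Sm K T)
    (hγ : γ < K) : ∃ B ⊆ T, Sm K B ∧ ¬ Le B γ := by
  obtain ⟨β, -, -, he⟩ := h.exists_col (S := T) (β := θ)
    (fun h' => hs (h'.mono fun b hb => ⟨hb, hT hb⟩)) (h.succ_lt hγ)
  refine ⟨T ∩ Iio β, inter_subset_left, h.col_lt_iff.1 (he ▸ h.succ_lt hγ), ?_⟩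
  rintro ⟨m, hm1, hm2⟩
  have := col_le_of_lt (W := T) (β := β) (γ := γ) m
    (fun a ha b hb hab hbβ => hm1 ⟨ha, hab.trans hbβ⟩ ⟨hb, hbβ⟩ hab)
    (fun b hb hbβ => hm2 b ⟨hb, hbβ⟩)
  rw [he] at this
  exact absurd this (not_le.2 (Order.lt_add_one_iff.2 le_rfl))

theorem Reg.fin2 (h : Reg K) {T : Set On} {θ γ : On} {k : On → On} (hT : T ⊆ Iio θ)
    (hk : ∀ β ∈ T, k β < θ) (hs : ¬ Sm K T) (hγ : γ < K) :
    ∃ B ⊆ T, Sm K B ∧ (¬ Le (k '' B) γ ∨ ∃ v, (∀ β ∈ B, k β = v) ∧ ¬ Le B γ) := by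
  by_cases H : ∃ v, ¬ Sm K (T ∩ k ⁻¹' {v})
  · obtain ⟨v, hv⟩ := H
    obtain ⟨B, hB, h1, h2⟩ := h.fin1 (inter_subset_left.trans hT) hv hγ
    exact ⟨B, hB.trans inter_subset_left, h1, Or.inr ⟨v, fun β hβ => (hB hβ).2, h2⟩⟩
  · push Not at H
    have h1 : ¬ Sm K (k '' T) := fun h' =>
      hs ((h.sm_biUnion h' fun v _ => H v).mono fun β hβ =>
        mem_biUnion (mem_image_of_mem k hβ) ⟨hβ, rfl⟩)
    obtain ⟨B, hB, h2, h3⟩ := h.fin1 (θ := θ) (by rintro _ ⟨β, hβ, rfl⟩; exact hk β hβ) h1 hγ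
    choose! σ hσ1 hσ2 using fun v (hv : v ∈ B) => hB hv
    refine ⟨σ '' B, ?_, h2.image _, Or.inl fun h4 => h3 (h4.mono fun v hv => ?_)⟩
    · rintro _ ⟨v, hv, rfl⟩
      exact hσ1 v hv
    · exact ⟨σ v, mem_image_of_mem _ hv, hσ2 v hv⟩

theorem Ctx.col_tr (c : Ctx K 𝓕) (W : Set On) :
    ∀ᶠ y in 𝓕, ∀ β ∈ y, col y (col W β) = col (tr W y) (col y β) ∧ col W β ∈ y := by
  have h1 := c.closed1 (p := fun _ => True) (φ := col W)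
    fun α hα _ => (col_le_self W α).trans_lt hα
  have h2 := c.diag (P := fun α y => ∀ b, (b ∈ W ∧ b < nx K ∧ col W b = α) → b ∈ y) fun α _ =>
    ev_unique (fun a b ha hb => col_inj ha.1 hb.1 (ha.2.2.trans hb.2.2.symm))
      fun a ha => c.fine a ha.2.1
  filter_upwards [h1, h2, c.sub] with y h1 h2 h3 β hβ
  refine ⟨?_, h1 β hβ trivial⟩
  rw [col_col (X := y) fun b hb hbβ =>
    ⟨fun h => h1 b h trivial, fun h => h2 _ h b ⟨hb, hbβ.trans (h3 hβ), rfl⟩⟩]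
  unfold tr
  rw [col_image (col_strictMonoOn y) inter_subset_right hβ, inter_comm]

theorem mem_Pc_self {θ η v β : On} (h : β < ff θ η v) : β ∈ Pc (FF θ η v) (FF θ η v) := by
  obtain ⟨b, hb, -, rfl⟩ := exists_col_eq h
  exact ⟨b, ⟨hb, hb⟩, rfl⟩

theorem Ctx.good_aux (c : Ctx K 𝓕) {b : Set On} (hb : b ⊆ Iio (nx K)) (hs : ¬ Sm K b)
    {ζ : On} (hζ : ζ < nx (nx K)) {D0 D : Set On} (hA : ∀ᶠ z in 𝓕, Agr K ζ D0 z)
    (hD : D ⊆ D0) {s : On} (hsl : s < nx K) (hsD : s ∈ D) (W : Set On) {γ : On} (hγ : γ < K) :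
    ∀ᶠ y in 𝓕, ∀ A ⊆ tr W y ∩ Iio (ff K (gg K ζ y) (col y s)), tr b y ⊆ col (tr W y) '' A →
      ¬ (Le (kk K (gg K ζ y) (col y s) (col y '' (D ∩ y)) '' A) γ ∧
        ∀ v, Le (A ∩ kk K (gg K ζ y) (col y s) (col y '' (D ∩ y)) ⁻¹' {v}) γ) := by
  have hff : ff (nx K) ζ s < nx K := c.regL.col_FF_lt hζ hsl ζ
  by_cases H : b ⊆ col W '' (W ∩ Iio (ff (nx K) ζ s))
  swap
  · obtain ⟨b0, hb0, hb0'⟩ := not_subset.1 H
    filter_upwards [hA, c.col_tr W, c.fine b0 (hb hb0), c.fine s hsl] with y h1 h2 h3 h4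
    intro A hA he _
    obtain ⟨a, ha, he'⟩ := he ((mem_tr h3).2 hb0)
    obtain ⟨⟨β, hβ, rfl⟩, hlt⟩ := hA ha
    rw [h1.ffeq s (hD hsD) h4] at hlt
    rw [← (h2 β hβ.2).1] at he'
    exact hb0' ⟨β, ⟨hβ.1, lt_of_col_lt hlt⟩, col_inj (h2 β hβ.2).2 h3 he'⟩
  set T : Set On := {β | β ∈ W ∧ β < ff (nx K) ζ s ∧ col W β ∈ b} with hT
  have hTs : ¬ Sm K T := fun h => hs ((h.image (col W)).mono fun β hβ => by
    obtain ⟨β', hβ', rfl⟩ := H hβ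
    exact ⟨β', ⟨hβ'.1, hβ'.2, hβ⟩, rfl⟩)
  have hkle : ∀ β ∈ T, kk (nx K) ζ s D β ≤ s := fun β hβ =>
    csInf_le' (s := {v | v ∈ D ∧ β ∈ Pc (FF (nx K) ζ v) (FF (nx K) ζ s)})
      ⟨hsD, mem_Pc_self hβ.2.1⟩
  have hkmem : ∀ β ∈ T, kk (nx K) ζ s D β ∈ D ∧
      β ∈ Pc (FF (nx K) ζ (kk (nx K) ζ s D β)) (FF (nx K) ζ s) := fun β hβ =>
    csInf_mem (s := {v | v ∈ D ∧ β ∈ Pc (FF (nx K) ζ v) (FF (nx K) ζ s)})
      ⟨s, hsD, mem_Pc_self hβ.2.1⟩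
  obtain ⟨B, hB, hBs, hbad⟩ := c.reg.fin2 (θ := nx K) (k := kk (nx K) ζ s D)
    (fun β hβ => lt_trans hβ.2.1 hff) (fun β hβ => (hkle β hβ).trans_lt hsl) hTs hγ
  have h5 := c.supset hBs fun β hβ => lt_trans (hB hβ).2.1 hff
  have h6 := c.supset (hBs.image (kk (nx K) ζ s D)) (by
    rintro _ ⟨β, hβ, rfl⟩
    exact (hkle β (hB hβ)).trans_lt hsl)
  filter_upwards [hA, c.col_tr W, c.fine s hsl, h5, h6] with y h1 h2 h4 h5 h6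
  intro A hA he
  have hmemA : ∀ β ∈ B, col y β ∈ A := by
    intro β hβ
    obtain ⟨a, ha, he'⟩ := he ((mem_tr (h2 β (h5 hβ)).2).2 (hB hβ).2.2)
    rw [(h2 β (h5 hβ)).1] at he'
    rw [← col_inj (hA ha).1 ((mem_tr (h5 hβ)).2 (hB hβ).1) he']
    exact ha
  have hk : ∀ β ∈ B, kk K (gg K ζ y) (col y s) (col y '' (D ∩ y)) (col y β) =
      col y (kk (nx K) ζ s D β) := by
    intro β hβ
    have hky := h6 (mem_image_of_mem _ hβ)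
    refine IsLeast.csInf_eq ⟨⟨⟨_, ⟨(hkmem β (hB hβ)).1, hky⟩, rfl⟩, ?_⟩, ?_⟩
    · rw [h1.pc _ (hD (hkmem β (hB hβ)).1) hky s (hD hsD) h4, mem_tr (h5 hβ)]
      exact (hkmem β (hB hβ)).2
    · rintro _ ⟨⟨v, hv, rfl⟩, hv'⟩
      rw [h1.pc _ (hD hv.1) hv.2 s (hD hsD) h4, mem_tr (h5 hβ)] at hv'
      exact col_mono y (csInf_le'
        (s := {v | v ∈ D ∧ β ∈ Pc (FF (nx K) ζ v) (FF (nx K) ζ s)}) ⟨hv.1, hv'⟩)
  rintro ⟨h7, h8⟩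
  rcases hbad with hbad | ⟨v, hv, hbad⟩
  · refine hbad (h7.of_map (col y) ((col_strictMonoOn y).mono h6) ?_)
    rintro _ ⟨β, hβ, rfl⟩
    exact ⟨_, hmemA β hβ, hk β hβ⟩
  · refine hbad ((h8 (col y v)).of_map (col y) ((col_strictMonoOn y).mono h5) fun β hβ => ?_)
    exact ⟨hmemA β hβ, by rw [mem_preimage, hk β hβ, hv β hβ]; rfl⟩

theorem Ctx.good (c : Ctx K 𝓕) (u : On → Set On) {b : Set On} (hb : b ⊆ Iio (nx K))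
    (hs : ¬ Sm K b) : ∀ᶠ y in 𝓕, Good K (tr b y) (tt y) (RR u y) := by
  classical
  refine c.loc_all fun ζ hζ => ?_
  let G : Set On → Set On → Prop := fun y C => ∃ D ∈ clF K, D ⊆ C ∧ ∀ ρ ∈ D, ∀ w ∈ RR u y,
    ∀ A ⊆ w ∩ Iio (ff K (gg K ζ y) ρ), tr b y ⊆ col w '' A →
      ¬ Break (tt y) (kk K (gg K ζ y) ρ D) A
  have ex : ∀ y, ∃ C ∈ clF K, G y C → ∀ C' ∈ clF K, G y C' := by
    intro y
    by_cases H : ∀ C' ∈ clF K, G y C'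
    · exact ⟨univ, univ_mem, fun _ => H⟩
    · push Not at H
      obtain ⟨C, hC, hC'⟩ := H
      exact ⟨C, hC, fun h => absurd h hC'⟩
  choose C hC1 hC2 using ex
  obtain ⟨D1, hD1, h1⟩ := c.kl1 (P := fun y ξ => ξ ∈ C y) (Eventually.of_forall hC1)
  obtain ⟨D0, hD0, hA⟩ := c.pcs hζ
  have h2 := c.diag (P := fun s y => ∀ α ∈ y, ∀ γ ∈ y, s ∈ D1 ∩ D0 ∧ γ < K →
      ∀ A ⊆ tr (u α) y ∩ Iio (ff K (gg K ζ y) (col y s)), tr b y ⊆ col (tr (u α) y) '' A →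
      ¬ (Le (kk K (gg K ζ y) (col y s) (col y '' ((D1 ∩ D0) ∩ y)) '' A) γ ∧
        ∀ v, Le (A ∩ kk K (gg K ζ y) (col y s) (col y '' ((D1 ∩ D0) ∩ y)) ⁻¹' {v}) γ))
    fun s hsl => c.diag2 fun α _ γ _ => by
      by_cases H : s ∈ D1 ∩ D0 ∧ γ < K
      · exact (c.good_aux hb hs hζ hA inter_subset_right hsl H.1 (u α) H.2).mono fun _ h _ => h
      · exact Eventually.of_forall fun _ h => absurd h H
  filter_upwards [h1, h2, c.pull (inter_mem hD1 hD0), c.typ] with y h1 h2 h3 ht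
  refine hC2 y ⟨col y '' ((D1 ∩ D0) ∩ y), ?_, ?_, ?_⟩
  · filter_upwards [h3] with ξ hξ
    obtain ⟨v, hv, hvy, rfl⟩ := hξ
    exact ⟨v, ⟨hv, hvy⟩, rfl⟩
  · rintro _ ⟨v, hv, rfl⟩
    exact h1 v hv.1.1 hv.2
  · rintro _ ⟨s, hs, rfl⟩ _ ⟨α, hα, rfl⟩ A hA he ⟨γ, hγ, h4⟩
    have hγK := hγ.trans ht.tlt
    exact h2 s hs.2 α hα γ ((ht.mem γ hγK).2 hγ) ⟨hs.1, hγK⟩ A hA he h4

end Pool.Agent.Lib.MP_e8440a_lc
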