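import Pool.Agent.Lib.MP_e8440a_lc.Cover

/- The contradiction. -/

open Set Order Filter

namespace Pool.Agent.Lib.MP_e8440a_lc

variable {K : On} {𝓕 : Filter (Set On)}

theorem Ctx.cfK (c : Ctx K 𝓕) {G : On → On} (hG : ∀ t < K, G t < K) :
    ∃ η < nx K, ∃ᶠ t in clF K, G t < ff K η t := by
  have := c.ne
  obtain ⟨α, hα, h⟩ := c.locK (P := fun ξ x => G (tt x) < ξ) (Eventually.frequently
    (c.typ.mono fun x ht => ⟨_, c.reg.succ_lt (hG _ ht.tlt), Order.lt_add_one_iff.2 le_rfl⟩))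
  refine ⟨α, hα, fun hc => ?_⟩
  obtain ⟨x, ⟨h1, h2⟩, h3, ht⟩ := (h.and_eventually ((c.tt_cl hc).and c.typ)).exists
  rw [ht.col_eq_ff h1 le_rfl] at h2
  exact h3 h2

theorem Ctx.cfL (c : Ctx K 𝓕) {g : On → On} (hg : ∀ s < nx K, g s < nx K) :
    ∃ ζ < nx (nx K), ∃ᶠ s in clF (nx K), g s < ff (nx K) ζ s := by
  have := c.ne
  have h1 := c.closed1 (p := fun _ => True) (φ := g) fun α hα _ => hg α hα
  obtain ⟨ζ, hζ, h⟩ := c.loc (P := fun η z => ∃ᶠ t in clF K, col z (g (en z t)) < ff K η t)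
    (Eventually.frequently ((h1.and c.typ).mono fun z hz => c.cfK fun t ht =>
      hz.2.collt _ (hz.1 _ (en_spec (hz.2.onto t ht)).1 trivial)))
  refine ⟨ζ, hζ, fun hc => ?_⟩
  obtain ⟨z, h2, h3⟩ := (h.and_eventually (c.ff_tr hζ (P := fun v w => ¬ g v < w) hc)).exists
  obtain ⟨t, h4, v, hv, w, -, h5, rfl, h6⟩ := (h2.and_eventually h3).exists
  rw [en_col hv, ← h6] at h4
  exact h5 (lt_of_col_lt h4)

theorem rank_ex (θ ζ s : On) : ∃ r : On → On, ∀ β < ff θ ζ s, r β < s ∧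
    ∀ v, β ∈ Pc (FF θ ζ v) (FF θ ζ s) ↔ r β < v := by
  choose! e he1 he2 he3 using fun β (hβ : β < ff θ ζ s) => exists_col_eq hβ
  refine ⟨fun β => hh θ ζ (e β), fun β hβ => ⟨(he1 β hβ).2, fun v => ⟨?_, fun h => ?_⟩⟩⟩
  · rintro ⟨b, hb, he⟩
    show hh θ ζ (e β) < v
    rw [← col_inj hb.2 (he1 β hβ) (he.trans (he3 β hβ).symm)]
    exact hb.1.2
  · exact ⟨e β, ⟨⟨he2 β hβ, h⟩, he1 β hβ⟩, he3 β hβ⟩

theorem col_Pc_lt {θ ζ v s β : On} (h : β ∈ Pc (FF θ ζ v) (FF θ ζ s)) :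
    col (Pc (FF θ ζ v) (FF θ ζ s)) β < ff θ ζ v := by
  obtain ⟨b, hb, rfl⟩ := h
  unfold Pc
  rw [col_image (col_strictMonoOn _) inter_subset_right hb.2]
  exact (col_le_col inter_subset_left b).trans_lt (col_lt hb.1 hb.1.1)

/-- the combinatorial core: the ranks break the trace of `x` -/
theorem break_core {x z D : Set On} {g s : On} {k r n : On → On} {P : On → Set On}
    {f : On → On} (hxz : ∀ β ∈ x, β < g → β ∈ z) (hxz' : ∀ β ∈ x, β < s → β ∈ z)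
    (hr : ∀ β ∈ x, β < g → r β ∈ x ∧ r β < s)
    (hn : ∀ α ∈ x, α < s → n α ∈ x ∧ α < n α ∧ n α < s ∧ col z (n α) ∈ D ∧ f (n α) < s)
    (hP : ∀ β < g, ∀ v, r β < v → β ∈ P v ∧ col (P v) β < f v)
    (hPx : ∀ v ∈ x, ∀ β ∈ x, col (P v) β ∈ x)
    (hk : ∀ β ∈ x, β < g → k (col z β) = sInf {v | v ∈ D ∧ col z (r β) < v}) :
    Le (k '' (col z '' (x ∩ Iio g))) (col x s) ∧
      ∀ v, Le (col z '' (x ∩ Iio g) ∩ k ⁻¹' {v}) (col x s) := by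
  have hk1 : ∀ β ∈ x, β < g → k (col z β) ∈ D ∧ col z (r β) < k (col z β) := by
    intro β hβ hg
    rw [hk β hβ hg]
    obtain ⟨h1, h2⟩ := hr β hβ hg
    obtain ⟨-, h3, -, h4, -⟩ := hn _ h1 h2
    exact csInf_mem (s := {v | v ∈ D ∧ col z (r β) < v}) ⟨_, h4, col_lt (hxz' _ h1 h2) h3⟩
  have hk2 : ∀ β ∈ x, β < g → ∀ v ∈ D, col z (r β) < v → k (col z β) ≤ v := by
    intro β hβ hg v hv hlt
    rw [hk β hβ hg]
    exact csInf_le' (s := {v | v ∈ D ∧ col z (r β) < v}) ⟨hv, hlt⟩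
  constructor
  · have ex : ∀ v ∈ k '' (col z '' (x ∩ Iio g)), ∃ β ∈ x, β < g ∧ k (col z β) = v := by
      rintro _ ⟨_, ⟨β, hβ, rfl⟩, rfl⟩
      exact ⟨β, hβ.1, hβ.2, rfl⟩
    choose! b hb1 hb2 hb3 using ex
    refine ⟨fun v => col x (r (b v)), fun v hv v' hv' hlt => ?_, fun v hv => ?_⟩
    · refine col_lt (hr _ (hb1 v hv) (hb2 v hv)).1 (not_le.1 fun hle => ?_)
      obtain ⟨h1, h2⟩ := hk1 _ (hb1 v hv) (hb2 v hv)
      have := hk2 _ (hb1 v' hv') (hb2 v' hv') _ h1 ((col_mono z hle).trans_lt h2)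
      rw [hb3 v hv, hb3 v' hv'] at this
      exact absurd hlt (not_lt.2 this)
    · exact col_lt (hr _ (hb1 v hv) (hb2 v hv)).1 (hr _ (hb1 v hv) (hb2 v hv)).2
  · intro v
    rcases (col z '' (x ∩ Iio g) ∩ k ⁻¹' {v}).eq_empty_or_nonempty with H | H
    · rw [H]
      exact ⟨id, fun _ h => h.elim, fun _ h => h.elim⟩
    obtain ⟨_, ⟨β0, hβ0, rfl⟩, hv⟩ := H
    obtain ⟨h1, h2⟩ := hr β0 hβ0.1 hβ0.2
    obtain ⟨h3, h4, h5, h6, h7⟩ := hn _ h1 h2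
    have hv' : v ≤ col z (n (r β0)) :=
      (show k (col z β0) = v from hv) ▸ hk2 β0 hβ0.1 hβ0.2 _ h6 (col_lt (hxz' _ h1 h2) h4)
    have hB : Le {β | β ∈ x ∧ β < g ∧ r β < n (r β0)} (col x s) := by
      refine ⟨fun β => col x (col (P (n (r β0))) β), fun a ha b _ hab => ?_, fun a ha => ?_⟩
      · exact col_lt (hPx _ h3 a ha.1) (col_lt (hP a ha.2.1 _ ha.2.2).1 hab)
      · exact col_lt (hPx _ h3 a ha.1) ((hP a ha.2.1 _ ha.2.2).2.trans h7)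
    refine (hB.image ((col_strictMonoOn z).mono fun β hβ => hxz β hβ.1 hβ.2.1)).mono ?_
    rintro _ ⟨⟨β, hβ, rfl⟩, hv2⟩
    refine ⟨β, ⟨hβ.1, hβ.2, lt_of_col_lt (W := z) ?_⟩, rfl⟩
    exact ((hk1 β hβ.1 hβ.2).2.trans_eq hv2).trans_le hv'

theorem Ctx.false (c : Ctx K 𝓕) : False := by
  classical
  have := c.ne
  have := c.reg.cl_neBot
  obtain ⟨A, hA, hCl⟩ := c.exists_A
  obtain ⟨u, hu⟩ := c.exists_u
  have exy : ∀ ι < K, ∃ y, ι < tt y ∧ QQ K A (tt y) (RR u y) ∧ Am K (RR u y) ∧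
      Sm (nx K) y := fun ι hι =>
    ((c.tt_cl (cl_gt hι)).and ((c.qq u hA).and (hu.and c.small))).exists
  choose! y hy1 hy2 hy3 hy4 using exy
  have exg : ∀ s < nx K, ∃ g < nx K, ∃ᶠ x in 𝓕, g ∈ x ∧ ∀ᶠ ξ' in clF K,
      Good K (Pc x (FF K g ξ')) (tt (y (col x s))) (RR u (y (col x s))) := fun s hs =>
    c.normal' ((hCl.and_eventually (c.fine s hs)).mono fun x hx =>
      hy2 _ (hx.1.collt s hx.2) x hx.1)
  choose! g hg1 hg2 using exg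
  obtain ⟨ζ, hζ, hst⟩ := c.cfL hg1
  obtain ⟨D0, hD0, hAg⟩ := c.pcs hζ
  have exD : ∀ (p : On × On) (z : Set On), ∃ D ∈ clF K,
      Good K (tr (u p.1) (y 0)) (tt (y p.2)) (RR u (y p.2)) → gg K ζ z < nx K →
      col z '' (D0 ∩ z) ∈ clF K → D ⊆ col z '' (D0 ∩ z) ∧ ∀ ρ ∈ D, ∀ w ∈ RR u (y p.2),
        ∀ A ⊆ w ∩ Iio (ff K (gg K ζ z) ρ), tr (u p.1) (y 0) ⊆ col w '' A →
          ¬ Break (tt (y p.2)) (kk K (gg K ζ z) ρ D) A := by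
    intro p z
    by_cases H : Good K (tr (u p.1) (y 0)) (tt (y p.2)) (RR u (y p.2)) ∧ gg K ζ z < nx K ∧
      col z '' (D0 ∩ z) ∈ clF K
    · obtain ⟨D, hD, h⟩ := H.1 _ H.2.1 _ H.2.2
      exact ⟨D, hD, fun _ _ _ => h⟩
    · exact ⟨univ, univ_mem, fun h1 h2 h3 => absurd ⟨h1, h2, h3⟩ H⟩
  choose DD hDD1 hDD2 using exD
  choose E hE1 hE2 using fun p : On × On =>
    c.kl1 (P := fun z ξ => ξ ∈ DD p z) (Eventually.of_forall (hDD1 p))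
  have hC1 : ∀ᶠ v in clF (nx K), ∀ p ∈ y 0 ×ˢ Iio K, v ∈ E p :=
    c.regL.cl_ball (c.regL.sm_prod (hy4 0 c.reg.pos) (c.regL.sm_Iio.2 (lt_nx K)))
      fun p _ => hE1 p
  obtain ⟨s, hgs, hs, hsC, hsD, hlim, hscl⟩ := (hst.and_eventually ((cl_lt _).and (hC1.and
    (Eventually.and hD0 ((c.regL.cl_lim hC1).and (cl_closed (φ := ff (nx K) ζ)
      fun v hv => c.regL.col_FF_lt hζ hv ζ)))))).exists
  obtain ⟨r, hr⟩ := rank_ex (nx K) ζ s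
  choose! n hn1 hn2 hn3 using hlim
  have hg := hg1 s hs
  obtain ⟨C0, hC0, hC0'⟩ := hy3 0 c.reg.pos _ hg
  have hx1 := c.closed1 (p := fun β => β < g s) (φ := r)
    fun β _ h => (hr β (h.trans hgs)).1.trans hs
  have hx2 := c.closed1 (p := fun β => β < s) (φ := n) fun β _ h => (hn3 β h).trans hs
  have hx3 := c.closed2 (p := fun _ _ => True)
    (φ := fun v β => col (Pc (FF (nx K) ζ v) (FF (nx K) ζ s)) β)
    fun v _ β hβ _ => (col_le_self _ β).trans_lt hβ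
  obtain ⟨x, ⟨hgx, hGood⟩, ht, hsx, hx1, hx2, hx3, hx4⟩ := ((hg2 s hs).and_eventually
    (c.typ.and ((c.fine s hs).and (hx1.and (hx2.and (hx3.and (c.tt_cl hC0))))))).exists
  have hι := ht.collt s hsx
  obtain ⟨Cy, hCy, hCy'⟩ := hy3 _ hι _ hg
  obtain ⟨ξ', hGood, hξ1, hξ2, hξ3, hξ4⟩ := (hGood.and (Eventually.and hC0 (Eventually.and hCy
    ((cl_gt ht.tlt).and (cl_lt K))))).exists
  have he : Pc x (FF K (g s) ξ') = Pc (FF K (g s) (tt x)) (FF K (g s) ξ') := by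
    unfold Pc
    congr 1
    ext b
    exact ⟨fun hb => ⟨(ht.init _ hgx b hb.2.1).1 hb.1, hb.2⟩,
      fun hb => ⟨(ht.init _ hgx b hb.2.1).2 hb.1, hb.2⟩⟩
  obtain ⟨α, hα, hα'⟩ := hC0' _ hx4 _ hξ1
  rw [he, hα'] at hGood
  obtain ⟨z, htz, hz1, hz2, hz3, hz4, hz5, hz6, hz7, hz8⟩ := (c.typ.and (hAg.and
    ((c.pull hD0).and ((hE2 (α, col x s)).and ((c.fine _ hg).and ((c.fine s hs).and
    ((c.tt_cl hCy).and ((c.tt_cl (cl_gt hξ4)).and (c.supset (c.reg.col_lt_iff.1 hι)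
      fun b hb => lt_trans hb.2 hs))))))))).exists
  have hz2' : col z '' (D0 ∩ z) ∈ clF K := by
    filter_upwards [hz2] with ξ hξ
    obtain ⟨v, hv, hvz, rfl⟩ := hξ
    exact ⟨v, ⟨hv, hvz⟩, rfl⟩
  obtain ⟨hD1, hD2⟩ := hDD2 (α, col x s) z hGood hz1.lt hz2'
  have hp : (α, col x s) ∈ y 0 ×ˢ Iio K := ⟨hα, hι⟩
  have hFz : FF K (g s) ξ' ⊆ z := fun b hb => (htz.init _ hz4 b hb.1).2 (FF_mono hz7.le hb)
  have hxF : ∀ β ∈ x, β < g s → β ∈ FF K (g s) ξ' := fun β hβ hlt =>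
    FF_mono hξ3.le ((ht.init _ hgx β hlt).1 hβ)
  have hw : tr (FF K (g s) ξ') z ∈ RR u (y (col x s)) := by
    rw [htz.tr_eq hz4 FF_sub]
    exact hCy' _ hξ2 _ hz6
  refine hD2 _ (hz3 s (hsC _ hp) hz5) _ hw (col z '' (x ∩ Iio (g s))) ?_ ?_
    ⟨col x s, hy1 _ hι, ?_⟩
  · rintro _ ⟨β, hβ, rfl⟩
    have hβz := hFz (hxF β hβ.1 hβ.2)
    refine ⟨(mem_tr hβz).2 (hxF β hβ.1 hβ.2), ?_⟩
    rw [hz1.ffeq s hsD hz5]
    exact col_lt hβz (lt_trans hβ.2 hgs)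
  · rw [← hα', ← he]
    rintro _ ⟨β, hβ, rfl⟩
    refine ⟨_, ⟨β, ⟨hβ.1, hβ.2.1⟩, rfl⟩, ?_⟩
    unfold tr
    rw [col_image (col_strictMonoOn z) inter_subset_right (hFz hβ.2), inter_eq_left.2 hFz]
  · refine break_core (D := DD (α, col x s) z) (r := r) (n := n)
      (P := fun v => Pc (FF (nx K) ζ v) (FF (nx K) ζ s)) (f := ff (nx K) ζ)
      (fun β hβ h => hFz (hxF β hβ h)) (fun β hβ h => hz8 ⟨hβ, h⟩)
      (fun β hβ h => ⟨hx1 β hβ h, (hr β (h.trans hgs)).1⟩)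
      (fun a ha h => ⟨hx2 a ha h, hn2 a h, hn3 a h,
        hz3 _ (hn1 a h _ hp) (hz8 ⟨hx2 a ha h, hn3 a h⟩), hscl _ (hn3 a h)⟩)
      (fun β hβ v h => ⟨((hr β (hβ.trans hgs)).2 v).2 h,
        col_Pc_lt (((hr β (hβ.trans hgs)).2 v).2 h)⟩)
      (fun v hv β hβ => hx3 v hv β hβ trivial) fun β hβ h => ?_
    unfold kk
    congr 1
    ext v
    refine and_congr_right fun hv => ?_
    obtain ⟨v', hv', rfl⟩ := hD1 hv
    rw [hz1.pc v' hv'.1 hv'.2 s hsD hz5, mem_tr (hFz (hxF β hβ h)), (hr β (h.trans hgs)).2,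
      col_lt_iff (hz8 ⟨hx1 β hβ h, (hr β (h.trans hgs)).1⟩)]

end Pool.Agent.Lib.MP_e8440a_lc
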