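import Pool.Agent.Lib.MP_e8440a_lc.Basic

/- Representation of the ordinals below the second successor. -/

open Set Order Filter

namespace Pool.Agent.Lib.MP_e8440a_lc

/-- canonical functions -/
noncomputable def ff (θ η ξ : On) : On := col (FF θ η ξ) η

/-- the function representing `ζ` -/
noncomputable def gg (K ζ : On) (x : Set On) : On := col (XX (nx K) ζ x) ζ

variable {K : On} {𝓕 : Filter (Set On)}

theorem Ctx.regL2 (c : Ctx K 𝓕) : Reg (nx (nx K)) := c.reg.next.next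

theorem Ctx.fineX (c : Ctx K 𝓕) {ζ β : On} (hζ : ζ < nx (nx K)) (hβ : β < ζ) :
    ∀ᶠ x in 𝓕, β ∈ XX (nx K) ζ x :=
  (c.fine _ (c.regL.hh_lt hζ hβ)).mono fun _ h => ⟨hβ, h⟩

theorem Ctx.diagX (c : Ctx K 𝓕) {ζ : On} (hζ : ζ < nx (nx K)) {P : On → Set On → Prop}
    (h : ∀ β < ζ, ∀ᶠ x in 𝓕, P β x) : ∀ᶠ x in 𝓕, ∀ β ∈ XX (nx K) ζ x, P β x := by
  have := c.diag (P := fun α x => ∀ β, (β < ζ ∧ hh (nx K) ζ β = α) → P β x) fun α _ =>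
    ev_unique (fun a b ha hb => c.regL.hh_inj hζ ha.1 hb.1 (ha.2.trans hb.2.symm))
      fun a ha => h a ha.1
  filter_upwards [this] with x hx β hβ
  exact hx _ hβ.2 β ⟨hβ.1, rfl⟩

theorem Ctx.coh (c : Ctx K 𝓕) {ζ : On} (hζ : ζ < nx (nx K)) :
    ∀ᶠ x in 𝓕, ∀ β ∈ XX (nx K) ζ x, gg K β x = col (XX (nx K) ζ x) β := by
  refine c.diagX hζ fun β hβ => ?_
  have h1 := c.diagX (hβ.trans hζ) (P := fun γ x => γ ∈ XX (nx K) ζ x)
    fun γ hγ => c.fineX hζ (hγ.trans hβ)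
  have h2 := c.diagX hζ (P := fun γ x => γ < β → γ ∈ XX (nx K) β x) fun γ _ => by
    by_cases h : γ < β
    · exact (c.fineX (hβ.trans hζ) h).mono fun _ h _ => h
    · exact Eventually.of_forall fun _ h' => absurd h' h
  filter_upwards [h1, h2] with x h1 h2
  exact col_congr fun b hb => ⟨h1 b, fun h => h2 b h hb⟩

theorem Ctx.gg_lt (c : Ctx K 𝓕) {ζ : On} (hζ : ζ < nx (nx K)) :
    ∀ᶠ x in 𝓕, gg K ζ x < nx K := by
  filter_upwards [c.small] with x hx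
  exact c.regL.col_lt_iff.2 ((c.regL.sm_XX hζ hx).mono inter_subset_left)

theorem Ctx.gg_mono (c : Ctx K 𝓕) {ζ β : On} (hζ : ζ < nx (nx K)) (hβ : β < ζ) :
    ∀ᶠ x in 𝓕, gg K β x < gg K ζ x := by
  filter_upwards [c.coh hζ, c.fineX hζ hβ] with x h1 h2
  rw [h1 β h2]
  exact col_lt h2 hβ

theorem Ctx.gg_mono' (c : Ctx K 𝓕) {ζ β : On} (hζ : ζ < nx (nx K)) (hβ : β ≤ ζ) :
    ∀ᶠ x in 𝓕, gg K β x ≤ gg K ζ x := by
  rcases hβ.eq_or_lt with h | h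
  · subst h; exact Eventually.of_forall fun _ => le_rfl
  · exact (c.gg_mono hζ h).mono fun _ h => h.le

theorem Ctx.gg_ne (c : Ctx K 𝓕) {ζ β : On} (hζ : ζ < nx (nx K)) (hβ : β < nx (nx K))
    (h : β ≠ ζ) : ∀ᶠ x in 𝓕, gg K β x ≠ gg K ζ x := by
  rcases lt_or_gt_of_ne h with h | h
  · exact (c.gg_mono hζ h).mono fun _ h => h.ne
  · exact (c.gg_mono hβ h).mono fun _ h => h.ne'

theorem Ctx.lt_of_gg_lt (c : Ctx K 𝓕) {ζ β : On} (hβ : β < nx (nx K))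
    (h : ∃ᶠ x in 𝓕, gg K β x < gg K ζ x) : β < ζ := by
  by_contra h'
  obtain ⟨x, h1, h2⟩ := (h.and_eventually (c.gg_mono' hβ (not_lt.1 h'))).exists
  exact absurd h1 (not_lt.2 h2)

theorem freq_choose {α : Type*} {l : Filter α} {P : On → α → Prop}
    (h : ∃ᶠ x in l, ∃ η, P η x) : ∃ φ : α → On, ∃ᶠ x in l, P (φ x) x := by
  classical
  refine ⟨fun x => if H : ∃ η, P η x then H.choose else 0, h.mono fun x H => ?_⟩
  simp only [dif_pos H]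
  exact H.choose_spec

/-- every function into `nx K` is locally one of the functions `gg` -/
theorem Ctx.loc (c : Ctx K 𝓕) {P : On → Set On → Prop}
    (h : ∃ᶠ x in 𝓕, ∃ η < nx K, P η x) :
    ∃ ζ < nx (nx K), ∃ᶠ x in 𝓕, P (gg K ζ x) x := by
  obtain ⟨φ, hφ⟩ := freq_choose (P := fun η x => η < nx K ∧ P η x) h
  by_contra hc
  push Not at hc
  have h1 : ∀ ζ < nx (nx K), ∀ᶠ x in 𝓕, P (φ x) x → φ x ≠ gg K ζ x := by
    intro ζ hζ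
    filter_upwards [hc ζ hζ] with x hx hP he
    exact hx (he ▸ hP)
  have h2 : ∀ ζ < nx (nx K), ∀ᶠ x in 𝓕, P (φ x) x → gg K ζ x < φ x := by
    intro ζ hζ
    filter_upwards [h1 ζ hζ, c.coh hζ, c.diagX hζ fun β hβ => h1 β (hβ.trans hζ)]
      with x h1 h3 h4 hP
    refine lt_of_le_of_ne (not_lt.1 fun hlt => ?_) (h1 hP).symm
    obtain ⟨b, hb, -, he⟩ := exists_col_eq hlt
    exact h4 b hb hP (by rw [h3 b hb, he])
  have ex : ∀ ζ < nx (nx K), ∃ α < nx K, ∃ᶠ x in 𝓕, α ∈ x ∧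
      (φ x < nx K ∧ gg K ζ x < φ x ∧ hh K (φ x) (gg K ζ x) = col x α) := by
    intro ζ hζ
    refine c.locK (P := fun ξ x => φ x < nx K ∧ gg K ζ x < φ x ∧ hh K (φ x) (gg K ζ x) = ξ) ?_
    refine (hφ.and_eventually (h2 ζ hζ)).mono ?_
    rintro x ⟨⟨h3, h4⟩, h5⟩
    exact ⟨_, c.reg.hh_lt h3 (h5 h4), h3, h5 h4, rfl⟩
  choose! a ha1 ha2 using ex
  apply c.regL2.not_sm
  refine (c.regL2.sm_biUnion (S := Iio (nx K)) (T := fun i => {β | β < nx (nx K) ∧ a β = i})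
    (c.regL2.sm_Iio.2 (lt_nx _)) fun i _ => Sm.up ?_).mono fun β hβ =>
      mem_biUnion (ha1 β hβ) ⟨hβ, rfl⟩
  refine c.sat _ (fun ζ x => a ζ ∈ x ∧
      (φ x < nx K ∧ gg K ζ x < φ x ∧ hh K (φ x) (gg K ζ x) = col x (a ζ)))
    (fun β hβ => ha2 β hβ.1) ?_
  rintro β hβ β' hβ' hne
  filter_upwards [c.gg_ne hβ'.1 hβ.1 hne] with x hx
  rintro ⟨⟨-, h3, h4, h5⟩, -, -, h6, h7⟩
  exact hx (c.reg.hh_inj h3 h4 h6 (by rw [h5, h7, hβ.2, hβ'.2]))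

theorem Ctx.loc_all (c : Ctx K 𝓕) {P : On → Set On → Prop}
    (h : ∀ ζ < nx (nx K), ∀ᶠ x in 𝓕, P (gg K ζ x) x) :
    ∀ᶠ x in 𝓕, ∀ η < nx K, P η x := by
  by_contra hc
  rw [Filter.not_eventually] at hc
  obtain ⟨ζ, hζ, h2⟩ := c.loc (P := fun η x => ¬ P η x)
    (hc.mono fun x hx => by push Not at hx; exact hx)
  obtain ⟨x, h3, h4⟩ := (h2.and_eventually (h ζ hζ)).exists
  exact h3 h4

/-- the possible values of a function -/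
theorem Ctx.sm_vals (c : Ctx K 𝓕) (p : Set On → Prop) (φ : Set On → On) :
    Sm (nx K) {ζ | ζ < nx (nx K) ∧ ∃ᶠ x in 𝓕, p x ∧ gg K ζ x = φ x} := by
  refine c.sat _ (fun ζ x => p x ∧ gg K ζ x = φ x) (fun α hα => hα.2) ?_
  intro α hα β hβ hne
  filter_upwards [c.gg_ne hβ.1 hα.1 hne] with x hx
  rintro ⟨h1, h2⟩
  exact hx (h1.2.trans h2.2.symm)

theorem Ctx.bnd2 (c : Ctx K 𝓕) (φ : Set On → On) :
    ∃ b < nx (nx K), ∀ᶠ x in 𝓕, φ x < nx K → φ x < gg K b x := by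
  obtain ⟨b, hb, hb'⟩ := c.regL2.bdd (c.sm_vals (fun _ => True) φ).up id fun α hα => hα.1
  refine ⟨b, hb, ?_⟩
  by_contra hc
  rw [Filter.not_eventually] at hc
  obtain ⟨α, hα, h2⟩ := c.loc (P := fun ξ x => ξ = φ x ∧ gg K b x ≤ φ x) (hc.mono fun x hx => by
    push Not at hx
    exact ⟨φ x, hx.1, rfl, hx.2⟩)
  have hαb : α < b := hb' α ⟨hα, h2.mono fun x hx => ⟨trivial, hx.1⟩⟩
  obtain ⟨x, ⟨h3, h4⟩, h5⟩ := (h2.and_eventually (c.gg_mono hb hαb)).exists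
  exact absurd h5 (not_lt.2 (h4.trans h3.ge))

/-- kernel of a family of clubs of `nx K` -/
theorem Ctx.kl2 (c : Ctx K 𝓕) {P : Set On → On → Prop}
    (h : ∀ᶠ x in 𝓕, ∀ᶠ ξ in clF (nx K), P x ξ) :
    ∀ᶠ ζ in clF (nx (nx K)), ∀ᶠ x in 𝓕, P x (gg K ζ x) := by
  classical
  have : ∀ x, ∃ φ : On → On, (∀ᶠ ξ in clF (nx K), P x ξ) → (∀ α < nx K, φ α < nx K) ∧
      ∀ v < nx K, 0 < v → (∀ α < v, φ α < v) → P x v := by
    intro x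
    by_cases H : ∀ᶠ ξ in clF (nx K), P x ξ
    · obtain ⟨φ, hφ⟩ := ev_clF.1 H
      exact ⟨φ, fun _ => hφ⟩
    · exact ⟨id, fun h => absurd h H⟩
  choose φ hφ using this
  choose b hb1 hb2 using fun α => c.bnd2 fun x => φ x (gg K α x)
  refine ⟨b, fun α _ => hb1 α, fun ζ hζ h0 hcl => ?_⟩
  have h3 := c.diagX hζ (P := fun β x => gg K β x < nx K ∧ gg K (b β) x < gg K ζ x ∧
      (φ x (gg K β x) < nx K → φ x (gg K β x) < gg K (b β) x)) fun β hβ =>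
    (c.gg_lt (hβ.trans hζ)).and ((c.gg_mono hζ (hcl β hβ)).and (hb2 β))
  show ∀ᶠ x in 𝓕, P x (gg K ζ x)
  filter_upwards [h, h3, c.coh hζ, c.gg_lt hζ, c.fineX hζ h0] with x hx h3 h4 h5 h6
  obtain ⟨h1, h2⟩ := hφ x hx
  refine h2 _ h5 ((zero_le (a := col _ 0)).trans_lt (col_lt h6 h0)) fun ξ hξ => ?_
  obtain ⟨β, hβ, -, rfl⟩ := exists_col_eq hξ
  rw [← h4 β hβ]
  obtain ⟨h7, h8, h9⟩ := h3 β hβ
  exact (h9 (h1 _ h7)).trans h8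

/-- two filtrations agree on a club -/
theorem Reg.agree (hK : Reg K) {η : On} (hη : η < nx K) {f : On → On} (hf : InjOn f (Iio η))
    (hf' : ∀ β < η, f β < K) :
    ∀ᶠ ξ in clF K, ∀ β < η, (hh K η β < ξ ↔ f β < ξ) := by
  classical
  have h1 : ∀ i < K, ∃ j < K, ∀ β < η, hh K η β = i → f β ≤ j := by
    intro i _
    by_cases H : ∃ β < η, hh K η β = i
    · obtain ⟨β, hβ, he⟩ := H
      exact ⟨f β, hf' β hβ, fun β' hβ' he' => by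
        rw [hK.hh_inj hη hβ' hβ (he'.trans he.symm)]⟩
    · exact ⟨0, hK.pos, fun β hβ he => absurd ⟨β, hβ, he⟩ H⟩
  have h2 : ∀ i < K, ∃ j < K, ∀ β < η, f β = i → hh K η β ≤ j := by
    intro i _
    by_cases H : ∃ β < η, f β = i
    · obtain ⟨β, hβ, he⟩ := H
      exact ⟨hh K η β, hK.hh_lt hη hβ, fun β' hβ' he' => by
        rw [hf hβ' hβ (he'.trans he.symm)]⟩
    · exact ⟨0, hK.pos, fun β hβ he => absurd ⟨β, hβ, he⟩ H⟩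
  choose! a ha1 ha2 using h1
  choose! b hb1 hb2 using h2
  filter_upwards [cl_closed ha1, cl_closed hb1] with ξ h3 h4 β hβ
  exact ⟨fun h => (ha2 _ (hK.hh_lt hη hβ) β hβ rfl).trans_lt (h3 _ h),
    fun h => (hb2 _ (hf' β hβ) β hβ rfl).trans_lt (h4 _ h)⟩

theorem Ctx.agr (c : Ctx K 𝓕) {ζ : On} (hζ : ζ < nx (nx K)) :
    ∃ D ∈ clF (nx K), ∀ᶠ z in 𝓕, ∀ v ∈ D, v ∈ z →
      FF K (gg K ζ z) (col z v) = col (XX (nx K) ζ z) '' (XX (nx K) ζ z ∩ FF (nx K) ζ v) := by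
  classical
  obtain ⟨D, hD, h⟩ := c.kl1 (P := fun z ξ => ∀ β ∈ XX (nx K) ζ z,
      (hh K (gg K ζ z) (col (XX (nx K) ζ z) β) < ξ ↔ col z (hh (nx K) ζ β) < ξ)) (by
    filter_upwards [c.gg_lt hζ, c.typ] with z hz ht
    choose! e he1 he2 he3 using fun ξ (hξ : ξ < gg K ζ z) => exists_col_eq hξ
    have := c.reg.agree hz (f := fun ξ => col z (hh (nx K) ζ (e ξ)))
      (fun a ha b hb hab => by
        have h1 := col_inj (he1 a ha).2 (he1 b hb).2 hab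
        have h2 := c.regL.hh_inj hζ (he2 a ha) (he2 b hb) h1
        rw [← he3 a ha, h2, he3 b hb])
      (fun β hβ => ht.collt _ (he1 β hβ).2)
    filter_upwards [this] with ξ hξ β hβ
    have h1 : col (XX (nx K) ζ z) β < gg K ζ z := col_lt hβ hβ.1
    have h2 : e (col (XX (nx K) ζ z) β) = β := col_inj (he1 _ h1) hβ (he3 _ h1)
    have := hξ _ h1
    simp only [h2] at this
    exact this)
  refine ⟨D, hD, h.mono fun z hz v hv hvz => ?_⟩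
  ext ξ
  constructor
  · rintro ⟨h1, h2⟩
    obtain ⟨β, hβ, -, rfl⟩ := exists_col_eq h1
    exact ⟨β, ⟨hβ, hβ.1, lt_of_col_lt ((hz v hv hvz β hβ).1 h2)⟩, rfl⟩
  · rintro ⟨β, ⟨hβ, hβ'⟩, rfl⟩
    exact ⟨col_lt hβ hβ.1, (hz v hv hvz β hβ).2 (col_lt hβ.2 hβ'.2)⟩

theorem Reg.sm_FF {θ : On} (h : Reg θ) {η v : On} (hη : η < nx θ) (hv : v < θ) :
    Sm θ (FF θ η v) := h.sm_XX hη (h.sm_Iio.2 hv)

theorem Reg.col_FF_lt {θ : On} (h : Reg θ) {η v : On} (hη : η < nx θ) (hv : v < θ) (β : On) :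
    col (FF θ η v) β < θ := h.col_lt_iff.2 ((h.sm_FF hη hv).mono inter_subset_left)

theorem FF_mono {θ η v v' : On} (h : v ≤ v') : FF θ η v ⊆ FF θ η v' :=
  fun _ hβ => ⟨hβ.1, lt_of_lt_of_le hβ.2 h⟩

theorem Ctx.clz (c : Ctx K 𝓕) {ζ : On} (hζ : ζ < nx (nx K)) :
    ∀ᶠ z in 𝓕, ∀ v ∈ z, ff (nx K) ζ v ∈ z ∧ ∀ β ∈ FF (nx K) ζ v,
      (β ∈ XX (nx K) ζ z ↔ col (FF (nx K) ζ v) β ∈ z) := by
  refine c.diag fun v hv => ?_
  have h1 := c.diagX hζ (P := fun β z => col (FF (nx K) ζ v) β ∈ z)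
    fun β _ => c.fine _ (c.regL.col_FF_lt hζ hv β)
  have h2 := c.diag (P := fun α z => ∀ β, (β ∈ FF (nx K) ζ v ∧ col (FF (nx K) ζ v) β = α) →
      β ∈ XX (nx K) ζ z) fun α _ =>
    ev_unique (fun a b ha hb => col_inj ha.1 hb.1 (ha.2.trans hb.2.symm))
      fun a ha => c.fineX hζ ha.1.1
  filter_upwards [h1, h2, c.fine _ (c.regL.col_FF_lt hζ hv ζ)] with z h1 h2 h3
  exact ⟨h3, fun β hβ => ⟨h1 β, fun h => h2 _ h β ⟨hβ, rfl⟩⟩⟩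

/-- the collapse of `a ∩ x` -/
def tr (a x : Set On) : Set On := col x '' (a ∩ x)

theorem mem_tr {a x : Set On} {β : On} (hβ : β ∈ x) : col x β ∈ tr a x ↔ β ∈ a := by
  constructor
  · rintro ⟨b, hb, he⟩
    exact col_inj hb.2 hβ he ▸ hb.1
  · exact fun h => ⟨β, ⟨h, hβ⟩, rfl⟩

/-- what is needed about `z` with respect to `ζ` and its agreement club `D` -/
structure Agr (K ζ : On) (D z : Set On) : Prop where
  lt : gg K ζ z < nx K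
  mem : ∀ v ∈ z, ff (nx K) ζ v ∈ z
  ffeq : ∀ v ∈ D, v ∈ z → ff K (gg K ζ z) (col z v) = col z (ff (nx K) ζ v)
  pc : ∀ v ∈ D, v ∈ z → ∀ v' ∈ D, v' ∈ z →
    Pc (FF K (gg K ζ z) (col z v)) (FF K (gg K ζ z) (col z v')) =
      tr (Pc (FF (nx K) ζ v) (FF (nx K) ζ v')) z
  elt : ∀ v ∈ D, v ∈ z → ∀ β ∈ FF (nx K) ζ v, col (FF (nx K) ζ v) β ∈ z →
    β ∈ XX (nx K) ζ z ∧ gg K β z ∈ FF K (gg K ζ z) (col z v) ∧
      col (FF K (gg K ζ z) (col z v)) (gg K β z) = col z (col (FF (nx K) ζ v) β)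

theorem Ctx.pcs (c : Ctx K 𝓕) {ζ : On} (hζ : ζ < nx (nx K)) :
    ∃ D ∈ clF (nx K), ∀ᶠ z in 𝓕, Agr K ζ D z := by
  obtain ⟨D, hD, h⟩ := c.agr hζ
  refine ⟨D, hD, ?_⟩
  filter_upwards [h, c.clz hζ, c.gg_lt hζ, c.coh hζ] with z h1 h2 h3 h4
  set X := XX (nx K) ζ z with hX
  have hcc : ∀ v ∈ z, ∀ β, col z (col (FF (nx K) ζ v) β) = col (X ∩ FF (nx K) ζ v) β :=
    fun v hv β => col_col fun b hb _ => (h2 v hv).2 b hb
  refine ⟨h3, fun v hv => (h2 v hv).1, fun v hv hvz => ?_, fun v hv hvz v' hv' hvz' => ?_,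
    fun v hv hvz β hβ hβz => ?_⟩
  · unfold ff
    rw [hcc v hvz, h1 v hv hvz]
    symm
    refine col_eq_of_map (col X) (fun a ha b _ hab _ => col_lt ha.1 hab)
      (fun b hb hbζ => ⟨mem_image_of_mem _ hb, col_lt hb.1 hbζ⟩) ?_
    rintro _ ⟨b, hb, rfl⟩ -
    exact ⟨b, hb, hb.1.1, rfl⟩
  · rw [h1 v hv hvz, h1 v' hv' hvz',
      Pc_image (col_strictMonoOn X) inter_subset_left inter_subset_left]
    ext ξ
    constructor
    · rintro ⟨β, ⟨⟨hβ1, hβ2⟩, -, hβ3⟩, rfl⟩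
      exact ⟨_, ⟨⟨β, ⟨hβ2, hβ3⟩, rfl⟩, ((h2 v' hvz').2 β hβ3).1 hβ1⟩, hcc v' hvz' β⟩
    · rintro ⟨_, ⟨⟨β, ⟨hβ2, hβ3⟩, rfl⟩, hβ4⟩, rfl⟩
      have hβ1 := ((h2 v' hvz').2 β hβ3).2 hβ4
      exact ⟨β, ⟨⟨hβ1, hβ2⟩, hβ1, hβ3⟩, (hcc v' hvz' β).symm⟩
  · have hβ1 := ((h2 v hvz).2 β hβ).2 hβz
    rw [h4 β hβ1, h1 v hv hvz, hcc v hvz]
    exact ⟨hβ1, ⟨β, ⟨hβ1, hβ⟩, rfl⟩,
      col_image (col_strictMonoOn X) inter_subset_left hβ1⟩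

end Pool.Agent.Lib.MP_e8440a_lc
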